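import Pool.Agent.QKA99.Block
import Pool.Agent.PKE70.Defs

/-!
# Functions of low degree with product zero are separated by a shallow decision tree
-/

set_option autoImplicit false
set_option linter.unusedSectionVars false

open scoped BigOperators

namespace Pool.Agent.QKA99

open Pool.Agent.PKE70

variable {D R E E' α : Type} [Fintype D] [DecidableEq D] [Finite R]

/-- A small set of coordinates that meets all sets of top order of the functions `a i`. -/
theorem exists_hit [AddCommGroup E] [NormedAddCommGroup E'] [NormedSpace ℝ E'] {I : Type}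
    {n e : ℕ} (a : I → (D → R) → E) (b : (D → R) → E') (ha : ∀ i, Low (n + 1) (a i))
    (hb : Deg e b) (h : ∀ i f, a i f = 0 ∨ b f = 0) (f₀ : D → R) (hf₀ : b f₀ ≠ 0) :
    ∃ H : Finset D, H.card ≤ 2 * e ^ 2 * (n + 1) ∧ ∀ i (S : Finset D), S.card = n + 1 →
      (∃ y f, alt S (a i) y f ≠ 0) → ¬ Disjoint S H := by
  classical
  obtain ⟨ys, hys⟩ : ∃ ys : D → R, ∀ y, ‖b y‖ ≤ ‖b ys‖ := by
    have : Nonempty (D → R) := ⟨f₀⟩
    exact Finite.exists_max fun y => ‖b y‖
  have hne : b ys ≠ 0 := by
    intro h0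
    have := hys f₀
    rw [h0, norm_zero] at this
    exact hf₀ (norm_le_zero_iff.mp this)
  obtain ⟨P, hP⟩ : ∃ P : Finset (Finset D) → Prop, ∀ F, P F ↔
      (F : Set (Finset D)).PairwiseDisjoint id ∧
        ∀ S ∈ F, S.card = n + 1 ∧ ∃ i y f, alt S (a i) y f ≠ 0 := ⟨_, fun _ => Iff.rfl⟩
  have hbound : ∀ F, P F → F.card ≤ 2 * e ^ 2 := by
    intro F hF
    obtain ⟨hF1, hF2⟩ := (hP F).mp hF
    refine blocks_le hb ys hys hne F hF1 fun S hS => ?_
    obtain ⟨hc, i, y, f, hi⟩ := hF2 S hS
    obtain ⟨z, hz1, hz2⟩ := (ha i).exists_ne S hc.ge y f hi ys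
    exact ⟨z, hz1, (h i z).resolve_left hz2⟩
  obtain ⟨F, hF, hmax⟩ := Finset.exists_max_image
    (Finset.univ.filter fun F => P F) Finset.card
    ⟨∅, Finset.mem_filter.mpr ⟨Finset.mem_univ _, (hP ∅).mpr ⟨by simp, by simp⟩⟩⟩
  have hPF := (Finset.mem_filter.mp hF).2
  obtain ⟨hF1, hF2⟩ := (hP F).mp hPF
  refine ⟨F.biUnion id, ?_, ?_⟩
  · calc (F.biUnion id).card ≤ ∑ S ∈ F, S.card := Finset.card_biUnion_le
      _ = ∑ _S ∈ F, (n + 1) := Finset.sum_congr rfl fun S hS => (hF2 S hS).1
      _ = F.card * (n + 1) := by rw [Finset.sum_const, smul_eq_mul]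
      _ ≤ 2 * e ^ 2 * (n + 1) := Nat.mul_le_mul_right _ (hbound F hPF)
  · intro i S hS hSi hdis
    have hdis' : ∀ S' ∈ F, Disjoint S S' := by
      intro S' hS'
      exact Finset.disjoint_of_subset_right
        (Finset.subset_biUnion_of_mem (fun S : Finset D => id S) hS') hdis
    have hSF : S ∉ F := by
      intro hSF
      have h0 := hdis' S hSF
      rw [disjoint_self] at h0
      have : S.card = 0 := by
        rw [h0]
        rfl
      omega
    have hnew : P (insert S F) := by
      rw [hP]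
      constructor
      · rw [Finset.coe_insert]
        refine hF1.insert fun S' hS' _ => hdis' S' hS'
      · intro S' hS'
        rcases Finset.mem_insert.mp hS' with rfl | hS'
        · obtain ⟨y, f, hyf⟩ := hSi
          exact ⟨hS, i, y, f, hyf⟩
        · exact hF2 S' hS'
    have := hmax (insert S F) (Finset.mem_filter.mpr ⟨Finset.mem_univ _, hnew⟩)
    rw [Finset.card_insert_of_notMem hSF] at this
    omega

/-- query all points of a set -/
theorem exists_askAll [Nonempty R] (P : (D → R) → α → Prop) (c : ℕ) (H : Finset D) :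
    ∀ X : (D → R) → Prop,
      (∀ g : D → R, ∃ T : QAlg D R α, ∀ f, X f → (∀ x ∈ H, f x = g x) →
        T.cost f ≤ c ∧ P f (T.run f)) →
      ∃ T : QAlg D R α, ∀ f, X f → T.cost f ≤ H.card + c ∧ P f (T.run f) := by
  induction H using Finset.induction_on with
  | empty =>
    intro X h
    obtain ⟨T, hT⟩ := h (Classical.choice inferInstance)
    exact ⟨T, fun f hf => by simpa using hT f hf (by simp)⟩
  | insert x H hx ih =>
    intro X h
    have h1 : ∀ r : R, ∃ T : QAlg D R α, ∀ f, (X f ∧ f x = r) →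
        T.cost f ≤ H.card + c ∧ P f (T.run f) := by
      intro r
      refine ih (fun f => X f ∧ f x = r) fun g => ?_
      obtain ⟨T, hT⟩ := h (Function.update g x r)
      refine ⟨T, fun f hf hfg => hT f hf.1 fun y hy => ?_⟩
      rcases Finset.mem_insert.mp hy with rfl | hy
      · simp [hf.2]
      · have : y ≠ x := fun h' => hx (h' ▸ hy)
        rw [Function.update_of_ne this]
        exact hfg y hy
    choose T hT using h1
    refine ⟨QAlg.ask x T, fun f hf => ?_⟩
    obtain ⟨h2, h3⟩ := hT (f x) f ⟨hf, rfl⟩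
    refine ⟨?_, h3⟩
    rw [Finset.card_insert_of_notMem hx]
    show (T (f x)).cost f + 1 ≤ _
    omega

/-- Let the keys be linearly ordered, and let `a k` and `b k'` have product zero for all
`k' < k`. Then a decision tree finds a key that is at least every `k` with `a k f ≠ 0` and at most
every `k` with `b k f ≠ 0`. -/
theorem exists_tree [Nonempty R] {K : Type} [LinearOrder K] [Finite K] [Nonempty K]
    [AddCommGroup E] [NormedAddCommGroup E'] [NormedSpace ℝ E'] (e : ℕ) (d : ℕ) :
    ∀ (a : K → (D → R) → E) (b : K → (D → R) → E'),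
      (∀ k, (∃ k' < k, ∃ f, b k' f ≠ 0) → Low d (a k)) → (∀ k, Deg e (b k)) →
      (∀ k k' f, k' < k → a k f = 0 ∨ b k' f = 0) →
      ∃ T : QAlg D R K, ∀ f, T.cost f ≤ e ^ 2 * d * (d + 1) ∧
        (∀ k, a k f ≠ 0 → k ≤ T.run f) ∧ ∀ k, b k f ≠ 0 → T.run f ≤ k := by
  classical
  obtain ⟨top, htop⟩ : ∃ top : K, ∀ k, k ≤ top := Finite.exists_max id
  have hmin : ∀ b : K → (D → R) → E', (∃ k f, b k f ≠ 0) →
      ∃ m, (∃ f, b m f ≠ 0) ∧ ∀ k, (∃ f, b k f ≠ 0) → m ≤ k := by
    rintro b ⟨k, f, hk⟩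
    obtain ⟨m, hm1, hm2⟩ := Set.exists_min_image {k | ∃ f, b k f ≠ 0} id (Set.toFinite _)
      ⟨k, f, hk⟩
    exact ⟨m, hm1, hm2⟩
  induction d with
  | zero =>
    intro a b ha hb h
    by_cases hA : ∃ k f, b k f ≠ 0
    · obtain ⟨m, ⟨f1, hf1⟩, hm⟩ := hmin b hA
      refine ⟨QAlg.ret m, fun f => ⟨Nat.zero_le _, fun k hk => ?_, fun k hk => hm k ⟨f, hk⟩⟩⟩
      by_contra hlt
      have hlt' : m < k := not_le.mp hlt
      have h0 := (h k m f1 hlt').resolve_right hf1
      rw [(ha k ⟨m, hlt', f1, hf1⟩).const f1 f] at h0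
      exact hk h0
    · exact ⟨QAlg.ret top, fun f => ⟨Nat.zero_le _, fun k _ => htop k,
        fun k hk => absurd ⟨k, f, hk⟩ hA⟩⟩
  | succ n ih =>
    intro a b ha hb h
    by_cases hA : ∃ k f, b k f ≠ 0
    · obtain ⟨m, ⟨f1, hf1⟩, hm⟩ := hmin b hA
      obtain ⟨H, hH, hH'⟩ := exists_hit (I := {k : K // m < k}) (fun k => a k.1) (b m)
        (fun k => ha k.1 ⟨m, k.2, f1, hf1⟩) (hb m) (fun k f => h k.1 m f k.2) f1 hf1
      obtain ⟨T, hT⟩ := exists_askAll
        (fun f t => (∀ k, a k f ≠ 0 → k ≤ t) ∧ ∀ k, b k f ≠ 0 → t ≤ k)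
        (e ^ 2 * n * (n + 1)) H (fun _ => True) (by
          intro g
          obtain ⟨T, hT⟩ := ih (fun k => res H g (a k)) (fun k => res H g (b k))
            (by
              rintro k ⟨k', hk', f, hf⟩
              have hmk : m < k := (hm k' ⟨_, hf⟩).trans_lt hk'
              exact (ha k ⟨m, hmk, f1, hf1⟩).res _ _ fun S hS hne hdis =>
                hH' ⟨k, hmk⟩ S hS hne hdis)
            (fun k => (hb k).res _ _)
            (fun k k' f hkk' => h k k' _ hkk')
          refine ⟨T, fun f _ hfg => ⟨(hT f).1, fun k hk => (hT f).2.1 k ?_,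
            fun k hk => (hT f).2.2 k ?_⟩⟩
          · rwa [res_apply_of_eq _ _ _ _ hfg]
          · rwa [res_apply_of_eq _ _ _ _ hfg])
      refine ⟨T, fun f => ⟨(hT f trivial).1.trans ?_, (hT f trivial).2⟩⟩
      calc H.card + e ^ 2 * n * (n + 1)
          ≤ 2 * e ^ 2 * (n + 1) + e ^ 2 * n * (n + 1) := by omega
        _ = e ^ 2 * (n + 1) * (n + 1 + 1) := by ring
    · exact ⟨QAlg.ret top, fun f => ⟨Nat.zero_le _, fun k _ => htop k,
        fun k hk => absurd ⟨k, f, hk⟩ hA⟩⟩

/-- If `a` and `b` have product zero, then a decision tree tells which one may be nonzero. -/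
theorem exists_tree_two [Nonempty R] [AddCommGroup E]
    [NormedAddCommGroup E'] [NormedSpace ℝ E'] (e : ℕ) (d : ℕ)
    (a : (D → R) → E) (b : (D → R) → E') (ha : Low d a) (hb : Deg e b)
    (h : ∀ f, a f = 0 ∨ b f = 0) :
    ∃ T : QAlg D R Bool, ∀ f, T.cost f ≤ e ^ 2 * d * (d + 1) ∧
      (a f ≠ 0 → T.run f = true) ∧ (b f ≠ 0 → T.run f = false) := by
  have hz : Deg e (0 : (D → R) → E') := AddSubmonoid.zero_mem _
  obtain ⟨T, hT⟩ := exists_tree (K := Bool) e d
    (fun k => match k with
      | true => a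
      | false => 0)
    (fun k => match k with
      | true => 0
      | false => b)
    (by
      rintro k ⟨k', hk', -⟩
      cases k with
      | true => exact ha
      | false => exact absurd hk' (by cases k' <;> decide))
    (by
      intro k
      cases k with
      | true => exact hz
      | false => exact hb)
    (by
      intro k k' f hk
      cases k with
      | true =>
        cases k' with
        | true => exact absurd hk (by decide)
        | false => exact h f
      | false => exact absurd hk (by cases k' <;> decide))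
  refine ⟨T, fun f => ⟨(hT f).1, fun ha' => ?_, fun hb' => ?_⟩⟩
  · have := (hT f).2.1 true ha'
    revert this
    cases T.run f <;> decide
  · have := (hT f).2.2 false hb'
    revert this
    cases T.run f <;> decide

end Pool.Agent.QKA99
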