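import Pool.Agent.QKA99.Deg

/-!
# Disjoint blocks whose change annihilates a function of low degree at its maximum
-/

set_option autoImplicit false
set_option linter.unusedSectionVars false

open scoped BigOperators

namespace Pool.Agent.QKA99

section Moebius

open Polynomial

variable {ι : Type} [Fintype ι] [DecidableEq ι]

lemma eval_moebius (φ : Finset ι → ℝ) (p : ℝ) :
    ∑ U : Finset ι, ((-1) ^ U.card * ∑ T ∈ U.powerset, (-1) ^ T.card * φ T) * p ^ U.card =
      ∑ T : Finset ι, φ T * (p ^ T.card * (1 - p) ^ (Fintype.card ι - T.card)) := by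
  have h1 : ∀ U : Finset ι,
      ((-1) ^ U.card * ∑ T ∈ U.powerset, (-1) ^ T.card * φ T) * p ^ U.card =
        ∑ T ∈ U.powerset, φ T * (p ^ T.card * (-p) ^ (U.card - T.card)) := by
    intro U
    rw [Finset.mul_sum, Finset.sum_mul]
    refine Finset.sum_congr rfl fun T hT => ?_
    have hle := Finset.card_le_card (Finset.mem_powerset.mp hT)
    obtain ⟨m, hm⟩ := Nat.exists_eq_add_of_le hle
    rw [hm, Nat.add_sub_cancel_left, neg_pow p m, pow_add, pow_add]
    have h2 : ((-1 : ℝ) ^ T.card) * (-1) ^ T.card = 1 := by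
      rw [← mul_pow]; norm_num
    calc (-1 : ℝ) ^ T.card * (-1) ^ m * ((-1) ^ T.card * φ T) * (p ^ T.card * p ^ m)
        = ((-1) ^ T.card * (-1) ^ T.card) * ((-1) ^ m * φ T * (p ^ T.card * p ^ m)) := by ring
      _ = φ T * (p ^ T.card * ((-1) ^ m * p ^ m)) := by rw [h2]; ring
  simp only [h1]
  rw [Finset.sum_comm' (t' := Finset.univ)
    (s' := fun T => Finset.univ.filter fun U => T ⊆ U) (by simp)]
  refine Finset.sum_congr rfl fun T _ => ?_
  rw [← Finset.mul_sum]
  congr 1
  rw [← Finset.mul_sum]
  congr 1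
  have h3 := Finset.sum_pow_mul_eq_add_pow (-p) (1 : ℝ) (Finset.univ \ T)
  simp only [one_pow, mul_one] at h3
  rw [show (-p) + 1 = 1 - p by ring, Finset.card_sdiff_of_subset (Finset.subset_univ T),
    Finset.card_univ] at h3
  rw [← h3]
  refine Finset.sum_bij' (fun U _ => U \ T) (fun V _ => T ∪ V) ?_ ?_ ?_ ?_ ?_
  · intro U _
    rw [Finset.mem_powerset]
    exact Finset.sdiff_subset_sdiff (Finset.subset_univ _) le_rfl
  · intro V _
    simp
  · intro U hU
    exact Finset.union_sdiff_of_subset (Finset.mem_filter.mp hU).2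
  · intro V hV
    have : Disjoint V T := by
      refine Finset.disjoint_of_subset_left (Finset.mem_powerset.mp hV) Finset.sdiff_disjoint
    ext i
    simp only [Finset.mem_sdiff, Finset.mem_union]
    constructor
    · rintro ⟨h | h, h'⟩
      · exact absurd h h'
      · exact h
    · intro h
      exact ⟨Or.inr h, fun h' => Finset.disjoint_left.mp this h h'⟩
  · intro U hU
    rw [Finset.card_sdiff_of_subset (Finset.mem_filter.mp hU).2]

theorem card_le_of_moebius (e : ℕ) (φ : Finset ι → ℝ) (hφ : ∀ T, |φ T| ≤ 1) (h0 : φ ∅ = 1)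
    (h1 : ∀ i, φ {i} = 0)
    (hm : ∀ U : Finset ι, e < U.card → ∑ T ∈ U.powerset, (-1) ^ T.card * φ T = 0) :
    Fintype.card ι ≤ 2 * e ^ 2 := by
  set c : Finset ι → ℝ := fun U => (-1) ^ U.card * ∑ T ∈ U.powerset, (-1) ^ T.card * φ T with hc
  set P : ℝ[X] := ∑ U : Finset ι, C (c U) * X ^ U.card with hP
  have hPdeg : P.natDegree ≤ e := by
    refine Polynomial.natDegree_sum_le_of_forall_le _ _ fun U _ => ?_
    by_cases hU : e < U.card
    · have : c U = 0 := by simp only [hc]; rw [hm U hU, mul_zero]
      rw [this]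
      simp
    · exact (Polynomial.natDegree_C_mul_X_pow_le _ _).trans (by omega)
  have hPeval : ∀ p : ℝ, P.eval p =
      ∑ T : Finset ι, φ T * (p ^ T.card * (1 - p) ^ (Fintype.card ι - T.card)) := by
    intro p
    rw [← eval_moebius, hP, Polynomial.eval_finsetSum]
    refine Finset.sum_congr rfl fun U _ => ?_
    rw [Polynomial.eval_mul, Polynomial.eval_C, Polynomial.eval_pow, Polynomial.eval_X]
  have hPbd : ∀ p : ℝ, 0 ≤ p → p ≤ 1 → |P.eval p| ≤ 1 := by
    intro p hp0 hp1
    rw [hPeval]
    refine (Finset.abs_sum_le_sum_abs _ _).trans ?_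
    have h3 := Finset.sum_pow_mul_eq_add_pow p (1 - p) (Finset.univ : Finset ι)
    rw [Finset.powerset_univ, Finset.card_univ, show p + (1 - p) = 1 by ring, one_pow] at h3
    refine le_of_le_of_eq (Finset.sum_le_sum fun T _ => ?_) h3
    have hnn : 0 ≤ p ^ T.card * (1 - p) ^ (Fintype.card ι - T.card) := by
      have : 0 ≤ 1 - p := by linarith
      positivity
    rw [abs_mul, abs_of_nonneg hnn]
    exact mul_le_of_le_one_left hnn (hφ T)
  have hcoeff : P.derivative.eval 0 = -(Fintype.card ι : ℝ) := by
    have h4 : P.derivative.eval 0 = P.coeff 1 := by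
      rw [← Polynomial.coeff_zero_eq_eval_zero, Polynomial.coeff_derivative]
      simp
    rw [h4, hP, Polynomial.finsetSum_coeff]
    have h5 : ∀ U : Finset ι, (C (c U) * X ^ U.card).coeff 1 = if U.card = 1 then c U else 0 := by
      intro U
      rw [Polynomial.coeff_C_mul, Polynomial.coeff_X_pow]
      by_cases h : U.card = 1
      · simp [h]
      · have h' : ¬ (1 = U.card) := fun h' => h h'.symm
        simp [h, h']
    simp only [h5]
    rw [← Finset.sum_filter]
    have h6 : (Finset.univ.filter fun U : Finset ι => U.card = 1) =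
        Finset.univ.image fun i : ι => ({i} : Finset ι) := by
      ext U
      simp only [Finset.mem_filter, Finset.mem_univ, true_and, Finset.mem_image,
        Finset.card_eq_one]
      exact ⟨fun ⟨i, hi⟩ => ⟨i, hi.symm⟩, fun ⟨i, hi⟩ => ⟨i, hi.symm⟩⟩
    rw [h6, Finset.sum_image (fun i _ j _ h => Finset.singleton_injective h)]
    have h7 : ∀ i : ι, c {i} = -1 := by
      intro i
      simp only [hc]
      have h8 : ({i} : Finset ι).powerset = {∅, {i}} := by
        ext T
        simp [Finset.subset_singleton_iff]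
      rw [Finset.card_singleton, h8, Finset.sum_pair (Finset.singleton_ne_empty i).symm]
      simp [h0, h1]
    simp [h7]
  set Q : ℝ[X] := P.comp (C (1 / 2) - C (1 / 2) * X) with hQ
  have hlin : (C (1 / 2 : ℝ) - C (1 / 2) * X).natDegree ≤ 1 := by
    compute_degree
  have hQdeg : Q.degree ≤ (e : ℕ) := by
    refine Polynomial.degree_le_of_natDegree_le ?_
    rw [hQ]
    refine Polynomial.natDegree_comp_le.trans ?_
    calc P.natDegree * (C (1 / 2 : ℝ) - C (1 / 2) * X).natDegree ≤ e * 1 :=
          Nat.mul_le_mul hPdeg hlin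
      _ = e := by ring
  have hQbd : ∀ x ∈ Set.Icc (-1 : ℝ) 1, |Q.eval x| ≤ 1 := by
    rintro x ⟨hx1, hx2⟩
    rw [hQ, Polynomial.eval_comp]
    refine hPbd _ ?_ ?_ <;> simp <;> linarith
  have hmar := Polynomial.Chebyshev.eval_iterate_derivative_le_of_forall_abs_le_one (k := 1)
    (le_refl (1 : ℝ)) hQdeg hQbd
  simp only [Function.iterate_one] at hmar
  rw [Polynomial.Chebyshev.derivative_T_eval_one] at hmar
  have hder : Q.derivative.eval 1 = (Fintype.card ι : ℝ) / 2 := by
    rw [hQ, Polynomial.derivative_comp, Polynomial.eval_mul, Polynomial.eval_comp]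
    have h8 : (C (1 / 2 : ℝ) - C (1 / 2) * X).eval 1 = 0 := by simp
    rw [h8, hcoeff]
    simp
    ring
  rw [hder] at hmar
  have h9 : (Fintype.card ι : ℝ) ≤ 2 * (e : ℝ) ^ 2 := by
    push_cast at hmar
    linarith
  exact_mod_cast h9

end Moebius

section Blocks

variable {D R E' : Type} [DecidableEq D]

open Classical in
/-- the points obtained from `ys` by changing the values on the blocks in `T` to those of the
points `z i` -/
noncomputable def blk {ι : Type} (c : D → Option ι) (ys : D → R) (z : ι → D → R)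
    (T : Finset ι) : D → R :=
  fun x => (c x).elim (ys x) fun i => if i ∈ T then z i x else ys x

lemma blk_alt_eq_zero {ι : Type} [DecidableEq ι] [AddCommGroup E'] {e : ℕ}
    {b : (D → R) → E'} (hb : Deg e b) (c : D → Option ι) (ys : D → R) (z : ι → D → R)
    (U : Finset ι) (hU : e < U.card) :
    ∑ T ∈ U.powerset, (-1 : ℤ) ^ T.card • b (blk c ys z T) = 0 := by
  classical
  unfold Deg at hb
  induction hb using AddSubmonoid.closure_induction with
  | mem g hg =>
    obtain ⟨S, hS, hg⟩ := hg
    obtain ⟨i, hi, hi'⟩ : ∃ i ∈ U, ∀ x ∈ S, c x ≠ some i := by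
      by_contra hcon
      push Not at hcon
      have h1 : U.image some ⊆ S.image c := by
        intro o ho
        obtain ⟨i, hi, rfl⟩ := Finset.mem_image.mp ho
        obtain ⟨x, hx, hxi⟩ := hcon i hi
        exact Finset.mem_image.mpr ⟨x, hx, hxi⟩
      have h2 := Finset.card_le_card h1
      rw [Finset.card_image_of_injective _ (Option.some_injective ι)] at h2
      have h3 : (S.image c).card ≤ S.card := Finset.card_image_le
      omega
    refine sum_alt_eq_zero U _ i hi fun T _ => hg fun x hx => ?_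
    unfold blk
    rcases hcx : c x with _ | j
    · rfl
    · have hji : j ≠ i := fun h => hi' x hx (by rw [hcx, h])
      simp [hji]
  | zero => simp
  | add g h _ _ hg hh =>
    have : ∑ T ∈ U.powerset, (-1 : ℤ) ^ T.card • (g + h) (blk c ys z T) =
        ∑ T ∈ U.powerset, (-1 : ℤ) ^ T.card • g (blk c ys z T) +
          ∑ T ∈ U.powerset, (-1 : ℤ) ^ T.card • h (blk c ys z T) := by
      rw [← Finset.sum_add_distrib]
      exact Finset.sum_congr rfl fun T _ => by simp
    rw [this, hg, hh, add_zero]

/-- If changing the values on each of the disjoint sets in `F` can turn a point where the norm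
of `b` is maximal and not zero into a zero of `b`, then there are at most `2 e ^ 2` such sets. -/
theorem blocks_le [NormedAddCommGroup E'] [NormedSpace ℝ E'] {e : ℕ}
    {b : (D → R) → E'} (hb : Deg e b) (ys : D → R) (hmax : ∀ y, ‖b y‖ ≤ ‖b ys‖)
    (hne : b ys ≠ 0) (F : Finset (Finset D)) (hF : (F : Set (Finset D)).PairwiseDisjoint id)
    (hz : ∀ S ∈ F, ∃ z : D → R, (∀ x, x ∉ S → z x = ys x) ∧ b z = 0) :
    F.card ≤ 2 * e ^ 2 := by
  classical
  choose z hz1 hz2 using fun i : F => hz i.1 i.2
  obtain ⟨c, hc⟩ : ∃ c : D → Option F, ∀ x i, c x = some i ↔ x ∈ i.1 := by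
    refine ⟨fun x => if h : ∃ i : F, x ∈ i.1 then some h.choose else none, fun x i => ?_⟩
    by_cases h : ∃ i : F, x ∈ i.1
    · simp only [h, dif_pos, Option.some.injEq]
      constructor
      · intro h'
        rw [← h']
        exact h.choose_spec
      · intro h'
        by_contra hcon
        have hd : Disjoint h.choose.1 i.1 :=
          hF h.choose.2 i.2 fun h'' => hcon (Subtype.ext h'')
        exact Finset.disjoint_left.mp hd h.choose_spec h'
    · simp only [h, dif_neg, not_false_iff]
      constructor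
      · intro h'
        exact absurd h' (by simp)
      · intro h'
        exact absurd ⟨i, h'⟩ h
  obtain ⟨g, hg1, hg2⟩ := exists_dual_vector'' ℝ (b ys)
  have hpos : 0 < ‖b ys‖ := norm_pos_iff.mpr hne
  have hemp : blk c ys z ∅ = ys := by
    ext x
    unfold blk
    rcases c x with _ | j <;> simp
  have hsing : ∀ i, blk c ys z {i} = z i := by
    intro i
    ext x
    unfold blk
    rcases hcx : c x with _ | j
    · have : x ∉ i.1 := fun h => by simpa [hcx] using (hc x i).mpr h
      exact (hz1 i x this).symm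
    · by_cases hji : j = i
      · subst hji
        simp
      · have : x ∉ i.1 := fun h => by
          have h' := (hc x i).mpr h
          rw [hcx] at h'
          exact hji (Option.some.inj h')
        simp [hji, hz1 i x this]
  have key := card_le_of_moebius (ι := F) e
    (fun T => ‖b ys‖⁻¹ * g (b (blk c ys z T))) ?_ ?_ ?_ ?_
  · simpa using key
  · intro T
    rw [abs_mul, abs_of_pos (inv_pos.mpr hpos)]
    have h1 : |g (b (blk c ys z T))| ≤ ‖b ys‖ := by
      calc |g (b (blk c ys z T))| = ‖g (b (blk c ys z T))‖ := (Real.norm_eq_abs _).symm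
        _ ≤ ‖g‖ * ‖b (blk c ys z T)‖ := g.le_opNorm _
        _ ≤ 1 * ‖b ys‖ := mul_le_mul hg1 (hmax _) (norm_nonneg _) zero_le_one
        _ = ‖b ys‖ := one_mul _
    calc ‖b ys‖⁻¹ * |g (b (blk c ys z T))| ≤ ‖b ys‖⁻¹ * ‖b ys‖ := by gcongr
      _ = 1 := inv_mul_cancel₀ hpos.ne'
  · simp only [hemp, hg2]
    exact inv_mul_cancel₀ hpos.ne'
  · intro i
    simp only [hsing, hz2, map_zero, mul_zero]
  · intro U hU
    have h1 := congrArg g (blk_alt_eq_zero hb c ys z U hU)
    rw [map_sum, map_zero] at h1
    have h2 : ∀ T : Finset F, (-1 : ℝ) ^ T.card * (‖b ys‖⁻¹ * g (b (blk c ys z T))) =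
        ‖b ys‖⁻¹ * g ((-1 : ℤ) ^ T.card • b (blk c ys z T)) := by
      intro T
      rw [map_zsmul, zsmul_eq_mul]
      push_cast
      ring
    simp only [h2]
    rw [← Finset.mul_sum, h1, mul_zero]

end Blocks

end Pool.Agent.QKA99
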