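import Pool.Agent.QKA99.Osss

/-!
# The polynomial compatibility theorem
-/

set_option autoImplicit false
set_option linter.unusedSectionVars false

open scoped BigOperators

namespace Pool.Agent.QKA99

open Pool.Agent.PKE70

variable {D R E E' : Type} [Fintype D] [DecidableEq D] [Fintype R] [Nonempty R]

lemma sum_of_infl [NormedAddCommGroup E] (F : (D → R) → E) (δ : ℝ) (p : D) (h : infl F p ≤ δ) :
    ∑ h : D → R, ∑ r, ‖F h - F (Function.update h p r)‖ ^ 2 ≤
      2 * δ * Fintype.card (D → R) * Fintype.card R := by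
  have hN : (0 : ℝ) < Fintype.card (D → R) := by exact_mod_cast Fintype.card_pos
  have hR : (0 : ℝ) < Fintype.card R := by exact_mod_cast Fintype.card_pos
  unfold infl at h
  rw [Fintype.expect_eq_sum_div_card] at h
  simp only [Fintype.expect_eq_sum_div_card] at h
  rw [← Finset.sum_div, div_div, div_div, div_le_iff₀ (by positivity)] at h
  linarith

lemma sum_of_norm [NormedAddCommGroup E] (F : (D → R) → E) (h : 𝔼 h : D → R, ‖F h‖ ^ 2 = 1) :
    ∑ h : D → R, ‖F h‖ ^ 2 = Fintype.card (D → R) := by
  have hN : (0 : ℝ) < Fintype.card (D → R) := by exact_mod_cast Fintype.card_pos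
  rw [Fintype.expect_eq_sum_div_card, div_eq_one_iff_eq hN.ne'] at h
  exact h

/-- Two functions of degree at most `d` with mean square norm `1` all of whose influences are at
most `δ`, where `16 d ^ 8 δ < 1`, do not have product zero. -/
theorem compat [NormedAddCommGroup E] [NormedAddCommGroup E'] [NormedSpace ℝ E']
    (d : ℕ) (δ : ℝ) (F : (D → R) → E) (G : (D → R) → E')
    (hF : Deg d F) (hG : Deg d G) (hF1 : 𝔼 h : D → R, ‖F h‖ ^ 2 = 1)
    (hG1 : 𝔼 h : D → R, ‖G h‖ ^ 2 = 1) (hFi : ∀ x, infl F x ≤ δ) (hGi : ∀ x, infl G x ≤ δ)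
    (hδ : 16 * (d : ℝ) ^ 8 * δ < 1) : ∃ h, F h ≠ 0 ∧ G h ≠ 0 := by
  classical
  by_contra hcon
  push Not at hcon
  have hprod : ∀ f, F f = 0 ∨ G f = 0 := by
    intro f
    by_cases h : F f = 0
    · exact Or.inl h
    · exact Or.inr (hcon f h)
  obtain ⟨T, hT⟩ := exists_tree_two d d F G hF.low hG hprod
  set δ' : ℝ := max δ 0 with hδ'
  have hδ0 : 0 ≤ δ' := le_max_right _ _
  have hδ1 : 16 * (d : ℝ) ^ 8 * δ' < 1 := by
    rcases le_total δ 0 with h | h
    · rw [hδ', max_eq_right h]
      norm_num
    · rw [hδ', max_eq_left h]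
      exact hδ
  have hN : (0 : ℝ) < Fintype.card (D → R) := by exact_mod_cast Fintype.card_pos
  have hcost : ∀ f, T.cost f ≤ 2 * d ^ 4 := by
    intro f
    refine (hT f).1.trans ?_
    rcases Nat.eq_zero_or_pos d with h | h
    · subst h
      simp
    · have : d + 1 ≤ 2 * d := by omega
      calc d ^ 2 * d * (d + 1) ≤ d ^ 2 * d * (2 * d) := Nat.mul_le_mul_left _ this
        _ = 2 * d ^ 4 := by ring
  have hF2 := sum_ov_sub_le F (2 * δ') (by positivity)
    (fun p => sum_of_infl F δ' p ((hFi p).trans (le_max_left _ _))) (2 * d ^ 4) T hcost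
  have hG2 := sum_ov_sub_le G (2 * δ') (by positivity)
    (fun p => sum_of_infl G δ' p ((hGi p).trans (le_max_left _ _))) (2 * d ^ 4) T hcost
  set N : ℝ := (Fintype.card (D → R) : ℝ) with hNdef
  -- the points on which the tree answers false
  have h1 : ((Finset.univ.filter fun x : D → R => T.run x = false).card : ℝ) * N ≤
      ∑ x : D → R, ∑ y : D → R, ‖F y - F (ov T x y)‖ ^ 2 := by
    have h2 : ∑ x ∈ Finset.univ.filter (fun x : D → R => T.run x = false),
        ∑ y : D → R, ‖F y - F (ov T x y)‖ ^ 2 ≤
        ∑ x : D → R, ∑ y : D → R, ‖F y - F (ov T x y)‖ ^ 2 :=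
      Finset.sum_le_sum_of_subset_of_nonneg (Finset.subset_univ _)
        fun x _ _ => Finset.sum_nonneg fun y _ => by positivity
    refine le_trans (le_of_eq ?_) h2
    have h3 : ∀ x ∈ Finset.univ.filter (fun x : D → R => T.run x = false),
        ∑ y : D → R, ‖F y - F (ov T x y)‖ ^ 2 = N := by
      intro x hx
      have hx' := (Finset.mem_filter.mp hx).2
      have h4 : ∀ y, F (ov T x y) = 0 := by
        intro y
        by_contra hne
        have := (hT (ov T x y)).2.1 hne
        rw [run_ov, hx'] at this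
        exact absurd this (by simp)
      simp only [h4, sub_zero]
      exact sum_of_norm F hF1
    rw [Finset.sum_congr rfl h3, Finset.sum_const, nsmul_eq_mul]
  have h1' : ((Finset.univ.filter fun x : D → R => T.run x = true).card : ℝ) * N ≤
      ∑ x : D → R, ∑ y : D → R, ‖G y - G (ov T x y)‖ ^ 2 := by
    have h2 : ∑ x ∈ Finset.univ.filter (fun x : D → R => T.run x = true),
        ∑ y : D → R, ‖G y - G (ov T x y)‖ ^ 2 ≤
        ∑ x : D → R, ∑ y : D → R, ‖G y - G (ov T x y)‖ ^ 2 :=
      Finset.sum_le_sum_of_subset_of_nonneg (Finset.subset_univ _)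
        fun x _ _ => Finset.sum_nonneg fun y _ => by positivity
    refine le_trans (le_of_eq ?_) h2
    have h3 : ∀ x ∈ Finset.univ.filter (fun x : D → R => T.run x = true),
        ∑ y : D → R, ‖G y - G (ov T x y)‖ ^ 2 = N := by
      intro x hx
      have hx' := (Finset.mem_filter.mp hx).2
      have h4 : ∀ y, G (ov T x y) = 0 := by
        intro y
        by_contra hne
        have := (hT (ov T x y)).2.2 hne
        rw [run_ov, hx'] at this
        exact absurd this (by simp)
      simp only [h4, sub_zero]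
      exact sum_of_norm G hG1
    rw [Finset.sum_congr rfl h3, Finset.sum_const, nsmul_eq_mul]
  have hcard : ((Finset.univ.filter fun x : D → R => T.run x = false).card : ℝ) +
      ((Finset.univ.filter fun x : D → R => T.run x = true).card : ℝ) = N := by
    have h5 := Finset.card_filter_add_card_filter_not (s := (Finset.univ : Finset (D → R)))
      (fun x : D → R => T.run x = false)
    have h6 : (Finset.univ.filter fun x : D → R => ¬ T.run x = false) =
        Finset.univ.filter fun x : D → R => T.run x = true := by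
      ext x
      simp
    rw [h6, Finset.card_univ] at h5
    rw [hNdef]
    exact_mod_cast h5
  have hfin : N * N ≤ 16 * (d : ℝ) ^ 8 * δ' * (N * N) := by
    calc N * N = ((Finset.univ.filter fun x : D → R => T.run x = false).card : ℝ) * N +
          ((Finset.univ.filter fun x : D → R => T.run x = true).card : ℝ) * N := by
            rw [← add_mul, hcard]
      _ ≤ (((2 * d ^ 4 : ℕ) : ℝ) ^ 2 * (2 * δ') * N ^ 2) +
          (((2 * d ^ 4 : ℕ) : ℝ) ^ 2 * (2 * δ') * N ^ 2) :=
            add_le_add (h1.trans hF2) (h1'.trans hG2)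
      _ = 16 * (d : ℝ) ^ 8 * δ' * (N * N) := by
            push_cast
            ring
  have hNN : 0 < N * N := mul_pos hN hN
  have := (le_mul_iff_one_le_left hNN).mp hfin
  linarith

end Pool.Agent.QKA99
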