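import Pool.Agent.QPKE99.Defs

/-!
# Key agreement between two quantum parties over a classical channel

Functions of low degree on a product space; influences; parties that are quantum circuits with
oracle gates and exchange classical messages.
-/

set_option autoImplicit false

open scoped BigOperators

namespace Pool.Agent.QKA99

open Pool.Agent.PKE70 Pool.Agent.QPKE99

/-- `a` is a sum of functions each of which depends on at most `d` coordinates. -/
def Deg {D R E : Type} [AddCommGroup E] (d : ℕ) (a : (D → R) → E) : Prop :=
  a ∈ AddSubmonoid.closure
    {g : (D → R) → E | ∃ S : Finset D, S.card ≤ d ∧ DependsOn g (S : Set D)}

/-- The influence of the coordinate `x` on `F`: half the mean square of the change of `F` when the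
value at `x` of a uniformly random point is drawn anew. -/
noncomputable def infl {D R E : Type} [Fintype D] [DecidableEq D] [Fintype R]
    [NormedAddCommGroup E] (F : (D → R) → E) (x : D) : ℝ :=
  (𝔼 h : D → R, 𝔼 r : R, ‖F h - F (Function.update h x r)‖ ^ 2) / 2

/-- A step of a quantum computation whose state space has the orthonormal basis `R × W` (answer
register and work register): a unitary operator, or an oracle gate, which queries in superposition
the points `s w`. -/
inductive Step (D R W : Type) [Fintype R] [Fintype W]
  | unitary (U : EuclideanSpace ℂ (R × W) ≃ₗᵢ[ℂ] EuclideanSpace ℂ (R × W))
  | query (s : W → Option D)

/-- The two parties of a protocol exchange classical messages in `M`; `List M` is the type of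
transcripts, the last message first. When the transcript is `t`, a party whose turn it is carries
out the steps `prog t`, measures its registers in the standard basis partially, so that only
`msg t` of the basis state is read, and sends the result. When the conversation is over a party
carries out `prog t` and reads `key t`: its key, or `none` if it gives up. -/
structure Party (D R W M K : Type) [Fintype R] [Fintype W] where
  start : R × W
  prog : List M → List (Step D R W)
  msg : List M → R × W → M
  key : List M → R × W → Option K

section

variable {D R W M K : Type} [AddCommGroup R] [Fintype R] [Fintype W]

/-- The effect of a step with oracle `f`. -/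
noncomputable def Step.apply (f : D → R) :
    Step D R W → EuclideanSpace ℂ (R × W) → EuclideanSpace ℂ (R × W)
  | unitary U, v => U v
  | query s, v => gate s f v

/-- The effect of a list of steps, carried out from left to right. -/
noncomputable def exec (f : D → R) :
    List (Step D R W) → EuclideanSpace ℂ (R × W) → EuclideanSpace ℂ (R × W)
  | [], v => v
  | c :: l, v => exec f l (c.apply f v)

/-- The number of oracle gates in a list of steps. -/
def queries : List (Step D R W) → ℕ
  | [] => 0
  | .unitary _ :: l => queries l
  | .query _ :: l => queries l + 1

open Classical in
/-- The projection onto the basis states with the property `P`. -/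
noncomputable def proj (P : R × W → Prop) (v : EuclideanSpace ℂ (R × W)) :
    EuclideanSpace ℂ (R × W) :=
  WithLp.toLp 2 fun i => if P i then v i else 0

open Classical in
/-- The unnormalised state of the party with oracle `f` after the transcript `t`, if the party
sends the message that follows a transcript `t'` whenever `mine t'`. Its squared norm is the product
of the probabilities of the messages sent by the party. -/
noncomputable def Party.state (A : Party D R W M K) (mine : List M → Prop) (f : D → R) :
    List M → EuclideanSpace ℂ (R × W)
  | [] => EuclideanSpace.single A.start 1
  | m :: t => if mine t
      then proj (fun i => A.msg t i = m) (exec f (A.prog t) (A.state mine f t))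
      else A.state mine f t

/-- The part of the final state in which the party's output is `k`. -/
noncomputable def Party.final (A : Party D R W M K) (mine : List M → Prop) (f : D → R)
    (t : List M) (k : Option K) : EuclideanSpace ℂ (R × W) :=
  proj (fun i => A.key t i = k) (exec f (A.prog t) (A.state mine f t))

open Classical in
/-- The number of oracle gates up to the transcript `t`. -/
noncomputable def Party.cost (A : Party D R W M K) (mine : List M → Prop) : List M → ℕ
  | [] => 0
  | _ :: t => A.cost mine t + if mine t then queries (A.prog t) else 0

end

/-- A protocol: the two parties, and who sends the message that follows a transcript. -/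
structure Protocol (D R W W' M K : Type) [Fintype R] [Fintype W] [Fintype W'] where
  alice : Party D R W M K
  bob : Party D R W' M K
  turn : List M → Prop

namespace Protocol

variable {D R W W' M K : Type} [AddCommGroup R] [Fintype R] [Fintype W] [Fintype W']

/-- Along every transcript of length `n`, Alice makes at most `qA` queries and Bob at most
`qB`. -/
def QueryBound (P : Protocol D R W W' M K) (n qA qB : ℕ) : Prop :=
  ∀ t : List M, t.length = n →
    P.alice.cost P.turn t + queries (P.alice.prog t) ≤ qA ∧
    P.bob.cost (fun t => ¬ P.turn t) t + queries (P.bob.prog t) ≤ qB

/-- The probability that, with oracle `f`, the transcript is `t` and the outputs of Alice and Bob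
are `k` and `k'`. -/
noncomputable def prob (P : Protocol D R W W' M K) (f : D → R) (t : List M) (k k' : Option K) :
    ℝ :=
  ‖P.alice.final P.turn f t k‖ ^ 2 * ‖P.bob.final (fun t => ¬ P.turn t) f t k'‖ ^ 2

end Protocol

end Pool.Agent.QKA99
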