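import Pool.Agent.QKA99.Defs

/-!
# Functions of low degree on a product space

`Deg d a`: the function `a : (D → R) → E` is a sum of functions each of which depends on at most
`d` coordinates. Alternating sums over the subsets of a set of coordinates; functions whose
alternating sums of order above `d` vanish; restrictions.
-/

set_option autoImplicit false
set_option linter.unusedSectionVars false

open scoped BigOperators

namespace Pool.Agent.QKA99

variable {D R E E' : Type} [DecidableEq D] [AddCommGroup E] [AddCommGroup E']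

/-! ### Alternating sums -/

lemma sum_alt_eq_zero {ι : Type} [DecidableEq ι] (S : Finset ι) (h : Finset ι → E) (x : ι)
    (hx : x ∈ S) (hh : ∀ T, T ⊆ S.erase x → h (insert x T) = h T) :
    ∑ T ∈ S.powerset, (-1 : ℤ) ^ T.card • h T = 0 := by
  have hS : S = insert x (S.erase x) := (Finset.insert_erase hx).symm
  rw [hS, Finset.sum_powerset_insert (Finset.notMem_erase x S), ← Finset.sum_add_distrib]
  refine Finset.sum_eq_zero fun T hT => ?_
  have hT' := Finset.mem_powerset.mp hT
  have hxT : x ∉ T := fun h' => Finset.notMem_erase x S (hT' h')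
  rw [hh T hT', Finset.card_insert_of_notMem hxT, pow_succ]
  simp

/-- the alternating sum of `a` over the points obtained from `y` by replacing the values on a
subset of `S` by those of `f` -/
def alt (S : Finset D) (a : (D → R) → E) (y f : D → R) : E :=
  ∑ T ∈ S.powerset, (-1 : ℤ) ^ T.card • a (T.piecewise f y)

lemma alt_of_deg {d : ℕ} {a : (D → R) → E} (ha : Deg d a) (S : Finset D) (hS : d < S.card)
    (y f : D → R) : alt S a y f = 0 := by
  unfold Deg at ha
  induction ha using AddSubmonoid.closure_induction with
  | mem g hg =>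
    obtain ⟨S', hS', hg⟩ := hg
    obtain ⟨x, hx, hx'⟩ : ∃ x ∈ S, x ∉ S' := by
      by_contra hcon
      push Not at hcon
      exact absurd (Finset.card_le_card hcon) (by omega)
    refine sum_alt_eq_zero S _ x hx fun T _ => hg fun i hi => ?_
    have hix : i ≠ x := fun h => hx' (h ▸ hi)
    by_cases hiT : i ∈ T
    · rw [Finset.piecewise_eq_of_mem _ _ _ hiT,
        Finset.piecewise_eq_of_mem _ _ _ (Finset.mem_insert_of_mem hiT)]
    · rw [Finset.piecewise_eq_of_notMem _ _ _ hiT, Finset.piecewise_eq_of_notMem]
      simp [hix, hiT]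
  | zero => simp [alt]
  | add g h _ _ hg hh =>
    have : alt S (g + h) y f = alt S g y f + alt S h y f := by
      unfold alt
      rw [← Finset.sum_add_distrib]
      exact Finset.sum_congr rfl fun T _ => by simp
    rw [this, hg, hh, add_zero]

/-- the alternating sums of order above `d` vanish -/
def Low (d : ℕ) (a : (D → R) → E) : Prop :=
  ∀ S : Finset D, d < S.card → ∀ y f, alt S a y f = 0

lemma Deg.low {d : ℕ} {a : (D → R) → E} (ha : Deg d a) : Low d a :=
  fun S hS y f => alt_of_deg ha S hS y f

lemma alt_insert (S : Finset D) (a : (D → R) → E) (y f : D → R) (x : D) (hx : x ∉ S) (v : R) :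
    alt (insert x S) a y (Function.update f x v) =
      alt S a y f - alt S a (Function.update y x v) f := by
  unfold alt
  rw [Finset.sum_powerset_insert hx, sub_eq_add_neg, ← Finset.sum_neg_distrib]
  congr 1
  · refine Finset.sum_congr rfl fun T hT => ?_
    have hxT : x ∉ T := fun h => hx (Finset.mem_powerset.mp hT h)
    congr 2
    ext i
    by_cases hi : i ∈ T
    · have hix : i ≠ x := fun h => hxT (h ▸ hi)
      rw [Finset.piecewise_eq_of_mem _ _ _ hi, Finset.piecewise_eq_of_mem _ _ _ hi,
        Function.update_of_ne hix]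
    · rw [Finset.piecewise_eq_of_notMem _ _ _ hi, Finset.piecewise_eq_of_notMem _ _ _ hi]
  · refine Finset.sum_congr rfl fun T hT => ?_
    have hxT : x ∉ T := fun h => hx (Finset.mem_powerset.mp hT h)
    have h1 : (insert x T).piecewise (Function.update f x v) y =
        T.piecewise f (Function.update y x v) := by
      ext i
      by_cases hix : i = x
      · subst hix
        rw [Finset.piecewise_eq_of_mem _ _ _ (Finset.mem_insert_self _ _),
          Finset.piecewise_eq_of_notMem _ _ _ hxT]
        simp
      · by_cases hi : i ∈ T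
        · rw [Finset.piecewise_eq_of_mem _ _ _ (Finset.mem_insert_of_mem hi),
            Finset.piecewise_eq_of_mem _ _ _ hi, Function.update_of_ne hix]
        · rw [Finset.piecewise_eq_of_notMem _ _ _ (by simp [hix, hi]),
            Finset.piecewise_eq_of_notMem _ _ _ hi, Function.update_of_ne hix]
    rw [h1, Finset.card_insert_of_notMem hxT, pow_succ]
    simp

lemma Low.alt_congr [Fintype D] {d : ℕ} {a : (D → R) → E} (ha : Low d a) (S : Finset D)
    (hS : d ≤ S.card) (y y' f : D → R) (hy : ∀ x ∈ S, y x = y' x) :
    alt S a y f = alt S a y' f := by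
  have key : ∀ U : Finset D, Disjoint U S → alt S a (U.piecewise y' y) f = alt S a y f := by
    intro U
    induction U using Finset.induction_on with
    | empty => intro _; simp
    | insert x U hxU ih =>
      intro hdis
      have hxS : x ∉ S := Finset.disjoint_left.mp hdis (Finset.mem_insert_self _ _)
      have hdis' : Disjoint U S :=
        Finset.disjoint_of_subset_left (Finset.subset_insert _ _) hdis
      have h1 := alt_insert S a (U.piecewise y' y) f x hxS (y' x)
      rw [ha (insert x S) (by rw [Finset.card_insert_of_notMem hxS]; omega)] at h1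
      have h2 : Function.update (U.piecewise y' y) x (y' x) = (insert x U).piecewise y' y := by
        rw [Finset.piecewise_insert]
      rw [h2, ih hdis'] at h1
      exact (sub_eq_zero.mp h1.symm).symm
  have h := key (Finset.univ \ S) Finset.sdiff_disjoint
  have h2 : (Finset.univ \ S).piecewise y' y = y' := by
    ext i
    by_cases hi : i ∈ S
    · rw [Finset.piecewise_eq_of_notMem _ _ _ (by simp [hi]), hy i hi]
    · rw [Finset.piecewise_eq_of_mem _ _ _ (by simp [hi])]
  rw [h2] at h
  exact h.symm

/-- If an alternating sum of top order does not vanish, then every point can be changed on that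
set of coordinates so that the function does not vanish. -/
lemma Low.exists_ne [Fintype D] {d : ℕ} {a : (D → R) → E} (ha : Low d a) (S : Finset D)
    (hS : d ≤ S.card) (y f : D → R) (h : alt S a y f ≠ 0) (ys : D → R) :
    ∃ z : D → R, (∀ x, x ∉ S → z x = ys x) ∧ a z ≠ 0 := by
  by_contra hcon
  push Not at hcon
  refine h ?_
  rw [ha.alt_congr S hS y (S.piecewise y ys) f
    (fun x hx => (Finset.piecewise_eq_of_mem _ _ _ hx).symm)]
  unfold alt
  refine Finset.sum_eq_zero fun T hT => ?_
  rw [hcon, smul_zero]
  intro x hx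
  have hxT : x ∉ T := fun h' => hx (Finset.mem_powerset.mp hT h')
  rw [Finset.piecewise_eq_of_notMem _ _ _ hxT, Finset.piecewise_eq_of_notMem _ _ _ hx]

lemma Low.const [Fintype D] {a : (D → R) → E} (ha : Low 0 a) (y y' : D → R) : a y = a y' := by
  have h := ha.alt_congr ∅ le_rfl y y' y (by simp)
  simpa [alt] using h

/-! ### Restrictions -/

/-- the restriction of `a` to the points that agree with `g` on `H`, as a function of all
points -/
def res (H : Finset D) (g : D → R) (a : (D → R) → E) : (D → R) → E :=
  fun f => a (H.piecewise g f)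

lemma res_apply_of_eq (H : Finset D) (g f : D → R) (a : (D → R) → E)
    (h : ∀ x ∈ H, f x = g x) : res H g a f = a f := by
  unfold res
  congr 1
  ext i
  by_cases hi : i ∈ H
  · rw [Finset.piecewise_eq_of_mem _ _ _ hi, h i hi]
  · rw [Finset.piecewise_eq_of_notMem _ _ _ hi]

lemma Deg.res {d : ℕ} {a : (D → R) → E} (ha : Deg d a) (H : Finset D) (g : D → R) :
    Deg d (res H g a) := by
  unfold Deg at ha
  induction ha using AddSubmonoid.closure_induction with
  | mem u hu =>
    obtain ⟨S, hS, hu⟩ := hu
    refine AddSubmonoid.subset_closure ⟨S, hS, fun x y hxy => hu fun i hi => ?_⟩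
    by_cases hiH : i ∈ H
    · rw [Finset.piecewise_eq_of_mem _ _ _ hiH, Finset.piecewise_eq_of_mem _ _ _ hiH]
    · rw [Finset.piecewise_eq_of_notMem _ _ _ hiH, Finset.piecewise_eq_of_notMem _ _ _ hiH,
        hxy i hi]
  | zero => exact AddSubmonoid.zero_mem _
  | add u v _ _ hu hv => exact AddSubmonoid.add_mem _ hu hv

lemma Low.res {n : ℕ} {a : (D → R) → E} (ha : Low (n + 1) a) (H : Finset D) (g : D → R)
    (hH : ∀ S : Finset D, S.card = n + 1 → (∃ y f, alt S a y f ≠ 0) → ¬ Disjoint S H) :
    Low n (res H g a) := by
  intro S hS y f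
  by_cases hdis : Disjoint S H
  · have h1 : alt S (QKA99.res H g a) y f = alt S a (H.piecewise g y) f := by
      unfold alt QKA99.res
      refine Finset.sum_congr rfl fun T hT => ?_
      congr 2
      ext i
      by_cases hiH : i ∈ H
      · have hiT : i ∉ T := fun h' =>
          Finset.disjoint_left.mp hdis (Finset.mem_powerset.mp hT h') hiH
        rw [Finset.piecewise_eq_of_mem _ _ _ hiH, Finset.piecewise_eq_of_notMem _ _ _ hiT,
          Finset.piecewise_eq_of_mem _ _ _ hiH]
      · rw [Finset.piecewise_eq_of_notMem _ _ _ hiH]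
        by_cases hiT : i ∈ T
        · rw [Finset.piecewise_eq_of_mem _ _ _ hiT, Finset.piecewise_eq_of_mem _ _ _ hiT]
        · rw [Finset.piecewise_eq_of_notMem _ _ _ hiT, Finset.piecewise_eq_of_notMem _ _ _ hiT,
            Finset.piecewise_eq_of_notMem _ _ _ hiH]
    rw [h1]
    rcases Nat.lt_or_ge (n + 1) S.card with h | h
    · exact ha S h _ _
    · by_contra hne
      exact hH S (by omega) ⟨_, _, hne⟩ hdis
  · obtain ⟨x, hxS, hxH⟩ := Finset.not_disjoint_iff.mp hdis
    refine sum_alt_eq_zero S _ x hxS fun T _ => ?_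
    unfold QKA99.res
    congr 1
    ext i
    by_cases hiH : i ∈ H
    · rw [Finset.piecewise_eq_of_mem _ _ _ hiH, Finset.piecewise_eq_of_mem _ _ _ hiH]
    · rw [Finset.piecewise_eq_of_notMem _ _ _ hiH, Finset.piecewise_eq_of_notMem _ _ _ hiH]
      have hix : i ≠ x := fun h => hiH (h ▸ hxH)
      by_cases hiT : i ∈ T
      · rw [Finset.piecewise_eq_of_mem _ _ _ hiT,
          Finset.piecewise_eq_of_mem _ _ _ (Finset.mem_insert_of_mem hiT)]
      · rw [Finset.piecewise_eq_of_notMem _ _ _ hiT, Finset.piecewise_eq_of_notMem]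
        simp [hix, hiT]

/-! ### Operations that keep the degree -/

lemma Deg.comp {d : ℕ} {a : (D → R) → E} (ha : Deg d a) (φ : E →+ E') :
    Deg d (fun f => φ (a f)) := by
  unfold Deg at ha
  induction ha using AddSubmonoid.closure_induction with
  | mem u hu =>
    obtain ⟨S, hS, hu⟩ := hu
    exact AddSubmonoid.subset_closure ⟨S, hS, fun x y hxy => congrArg φ (hu hxy)⟩
  | zero =>
    have : (fun f => φ ((0 : (D → R) → E) f)) = (0 : (D → R) → E') := by
      ext f
      simp
    rw [this]
    exact AddSubmonoid.zero_mem _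
  | add u v _ _ hu hv =>
    have : (fun f => φ ((u + v) f)) = (fun f => φ (u f)) + fun f => φ (v f) := by
      ext f
      simp
    rw [this]
    exact AddSubmonoid.add_mem _ hu hv

lemma Deg.mono {d d' : ℕ} (h : d ≤ d') {a : (D → R) → E} (ha : Deg d a) : Deg d' a := by
  refine AddSubmonoid.closure_mono ?_ ha
  rintro g ⟨S, hS, hg⟩
  exact ⟨S, hS.trans h, hg⟩

lemma Deg.const (c : E) : Deg 0 (fun _ : D → R => c) :=
  AddSubmonoid.subset_closure ⟨∅, by simp, fun _ _ _ => rfl⟩

lemma Deg.add {d : ℕ} {a b : (D → R) → E} (ha : Deg d a) (hb : Deg d b) : Deg d (a + b) :=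
  AddSubmonoid.add_mem _ ha hb

lemma Deg.sum {d : ℕ} {ι : Type} (s : Finset ι) (a : ι → (D → R) → E) (ha : ∀ i ∈ s, Deg d (a i)) :
    Deg d (fun f => ∑ i ∈ s, a i f) := by
  have : (fun f => ∑ i ∈ s, a i f) = ∑ i ∈ s, a i := by
    ext f
    simp
  rw [this]
  exact AddSubmonoid.sum_mem _ ha

end Pool.Agent.QKA99
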