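import Pool.Agent.QKA99.Hit

/-!
# Functions of low influence change little when a decision tree re-samples its coordinates;
the polynomial compatibility theorem
-/

set_option autoImplicit false
set_option linter.unusedSectionVars false

open scoped BigOperators

namespace Pool.Agent.QKA99

open Pool.Agent.PKE70

variable {D R E E' α : Type} [Fintype D] [DecidableEq D] [Fintype R]

/-- the points queried on the oracle `x` -/
def seen (x : D → R) : QAlg D R α → Finset D
  | .ret _ => ∅
  | .ask p k => insert p (seen x (k (x p)))

/-- the decision tree in which the queries to `p` are answered by `r` -/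
def rst (p : D) (r : R) : QAlg D R α → QAlg D R α
  | .ret a => .ret a
  | .ask p' k => if p' = p then rst p r (k r) else .ask p' (fun r' => rst p r (k r'))

lemma cost_rst (p : D) (r : R) (f : D → R) (T : QAlg D R α) :
    (rst p r T).cost f ≤ T.cost (Function.update f p r) := by
  induction T with
  | ret a => exact le_rfl
  | ask p' k ih =>
    unfold rst
    by_cases h : p' = p
    · subst h
      simp only [if_true, QAlg.cost, Function.update_self]
      exact (ih r).trans (Nat.le_succ _)
    · simp only [h, if_false, QAlg.cost, Function.update_of_ne h]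
      exact Nat.succ_le_succ (ih _)

lemma seen_rst (p : D) (r : R) (x : D → R) (T : QAlg D R α) :
    seen x (rst p r T) = (seen (Function.update x p r) T).erase p := by
  induction T with
  | ret a => rfl
  | ask p' k ih =>
    unfold rst
    by_cases h : p' = p
    · subst h
      simp only [if_true, seen, Function.update_self]
      rw [ih r]
      ext i
      simp only [Finset.mem_erase, Finset.mem_insert]
      tauto
    · simp only [h, if_false, seen, Function.update_of_ne h]
      rw [ih (x p')]
      ext i
      simp only [Finset.mem_erase, Finset.mem_insert]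
      constructor
      · rintro (rfl | h')
        · exact ⟨h, Or.inl rfl⟩
        · exact ⟨h'.1, Or.inr h'.2⟩
      · rintro ⟨h1, h2 | h2⟩
        · exact Or.inl h2
        · exact Or.inr ⟨h1, h2⟩

lemma seen_congr (x x' : D → R) (T : QAlg D R α) (h : ∀ i ∈ seen x T, x' i = x i) :
    seen x' T = seen x T := by
  induction T with
  | ret a => rfl
  | ask p k ih =>
    simp only [seen] at h ⊢
    have hp : x' p = x p := h p (Finset.mem_insert_self _ _)
    rw [hp, ih (x p) fun i hi => h i (Finset.mem_insert_of_mem hi)]

lemma run_congr (x x' : D → R) (T : QAlg D R α) (h : ∀ i ∈ seen x T, x' i = x i) :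
    T.run x' = T.run x := by
  induction T with
  | ret a => rfl
  | ask p k ih =>
    simp only [seen] at h
    have hp : x' p = x p := h p (Finset.mem_insert_self _ _)
    simp only [QAlg.run, hp]
    exact ih (x p) fun i hi => h i (Finset.mem_insert_of_mem hi)

/-- `y` with the values of `x` at the points that the tree queries on `x` -/
def ov (T : QAlg D R α) (x y : D → R) : D → R := (seen x T).piecewise x y

lemma run_ov (T : QAlg D R α) (x y : D → R) : T.run (ov T x y) = T.run x :=
  run_congr _ _ _ fun _ hi => Finset.piecewise_eq_of_mem _ _ _ hi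

lemma ov_ask (p : D) (k : R → QAlg D R α) (x y : D → R) :
    ov (.ask p k) x y = Function.update (ov (rst p (x p) (k (x p))) x y) p (x p) := by
  unfold ov
  rw [seen_rst, Function.update_eq_self]
  simp only [seen]
  ext i
  by_cases hip : i = p
  · subst hip
    simp [Finset.piecewise]
  · rw [Function.update_of_ne hip]
    by_cases hi : i ∈ seen x (k (x p))
    · rw [Finset.piecewise_eq_of_mem _ _ _ (Finset.mem_insert_of_mem hi),
        Finset.piecewise_eq_of_mem _ _ _ (Finset.mem_erase.mpr ⟨hip, hi⟩)]
    · rw [Finset.piecewise_eq_of_notMem _ _ _ (by simp [hip, hi]),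
        Finset.piecewise_eq_of_notMem _ _ _ (by simp [hi])]

lemma ov_rst_update (p : D) (r r' : R) (T : QAlg D R α) (x y : D → R) :
    ov (rst p r T) (Function.update x p r') y = ov (rst p r T) x y := by
  unfold ov
  have h1 : seen (Function.update x p r') (rst p r T) = seen x (rst p r T) := by
    rw [seen_rst, seen_rst, Function.update_idem]
  rw [h1]
  ext i
  by_cases hi : i ∈ seen x (rst p r T)
  · have hip : i ≠ p := by
      rw [seen_rst] at hi
      exact Finset.ne_of_mem_erase hi
    rw [Finset.piecewise_eq_of_mem _ _ _ hi, Finset.piecewise_eq_of_mem _ _ _ hi,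
      Function.update_of_ne hip]
  · rw [Finset.piecewise_eq_of_notMem _ _ _ hi, Finset.piecewise_eq_of_notMem _ _ _ hi]

/-- `y` with the values of `x` at the points that the tree queries on `x`, is uniform -/
lemma sum_ov (T : QAlg D R α) (G : (D → R) → ℝ) :
    ∑ x : D → R, ∑ y : D → R, G (ov T x y) = Fintype.card (D → R) * ∑ h, G h := by
  have hinv : Function.Involutive fun z : (D → R) × (D → R) =>
      ((ov T z.1 z.2, (seen z.1 T).piecewise z.2 z.1) : (D → R) × (D → R)) := by
    rintro ⟨x, y⟩
    have h1 : seen (ov T x y) T = seen x T :=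
      seen_congr _ _ _ fun i hi => Finset.piecewise_eq_of_mem _ _ _ hi
    have h2 : ov T (ov T x y) ((seen x T).piecewise y x) = x := by
      unfold ov at h1 ⊢
      rw [h1]
      ext i
      by_cases hi : i ∈ seen x T <;> simp [Finset.piecewise, hi]
    have h3 : (seen (ov T x y) T).piecewise ((seen x T).piecewise y x) (ov T x y) = y := by
      rw [h1]
      unfold ov
      ext i
      by_cases hi : i ∈ seen x T <;> simp [Finset.piecewise, hi]
    exact Prod.ext h2 h3
  rw [← Fintype.sum_prod_type' fun x y => G (ov T x y)]
  have h4 : ∑ z : (D → R) × (D → R), G (ov T z.1 z.2) = ∑ z : (D → R) × (D → R), G z.1 :=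
    Equiv.sum_comp hinv.toPerm fun z => G z.1
  rw [h4, Fintype.sum_prod_type, Finset.sum_comm]
  simp

lemma sum_fiber (p : D) (G : R → (D → R) → ℝ)
    (hG : ∀ r x r', G r (Function.update x p r') = G r x) :
    Fintype.card R * ∑ x : D → R, G (x p) x = ∑ r, ∑ x, G r x := by
  have hinv : Function.Involutive fun z : R × (D → R) =>
      ((z.2 p, Function.update z.2 p z.1) : R × (D → R)) := by
    rintro ⟨r, x⟩
    simp
  rw [← Fintype.sum_prod_type' fun r x => G r x]
  have h4 : ∑ z : R × (D → R), G (z.2 p) (Function.update z.2 p z.1) =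
      ∑ z : R × (D → R), G z.1 z.2 :=
    Equiv.sum_comp hinv.toPerm fun z => G z.1 z.2
  rw [← h4]
  simp only [hG]
  rw [Fintype.sum_prod_type]
  simp

/-- The hybrid argument. -/
theorem sum_ov_sub_le [Nonempty R] [NormedAddCommGroup E] (F : (D → R) → E) (c : ℝ) (hc0 : 0 ≤ c)
    (hc : ∀ p, ∑ h : D → R, ∑ r, ‖F h - F (Function.update h p r)‖ ^ 2 ≤
      c * Fintype.card (D → R) * Fintype.card R) (t : ℕ) :
    ∀ T : QAlg D R α, (∀ f, T.cost f ≤ t) →
      ∑ x : D → R, ∑ y : D → R, ‖F y - F (ov T x y)‖ ^ 2 ≤
        (t : ℝ) ^ 2 * c * (Fintype.card (D → R)) ^ 2 := by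
  induction t with
  | zero =>
    intro T hT
    cases T with
    | ret a => simp [ov, seen]
    | ask p k =>
      exfalso
      have := hT (Classical.choice inferInstance)
      simp [QAlg.cost] at this
  | succ s ih =>
    intro T hT
    cases T with
    | ret a =>
      have : (0 : ℝ) ≤ ((s + 1 : ℕ) : ℝ) ^ 2 * c * (Fintype.card (D → R)) ^ 2 := by positivity
      simpa [ov, seen] using this
    | ask p k =>
      have hR : (0 : ℝ) < Fintype.card R := by exact_mod_cast Fintype.card_pos
      have hcost : ∀ r f, (rst p r (k r)).cost f ≤ s := by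
        intro r f
        refine (cost_rst p r f (k r)).trans ?_
        have := hT (Function.update f p r)
        simp only [QAlg.cost, Function.update_self] at this
        omega
      set N : ℝ := (Fintype.card (D → R) : ℝ) with hN
      have hN0 : 0 ≤ N := Nat.cast_nonneg _
      -- the first part
      have hS1 : ∑ x : D → R, ∑ y : D → R, ‖F y - F (ov (rst p (x p) (k (x p))) x y)‖ ^ 2 ≤
          (s : ℝ) ^ 2 * c * N ^ 2 := by
        have h1 := sum_fiber p
          (fun r x => ∑ y : D → R, ‖F y - F (ov (rst p r (k r)) x y)‖ ^ 2)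
          (fun r x r' => by simp only [ov_rst_update])
        have h2 : ∑ r, ∑ x : D → R, ∑ y : D → R, ‖F y - F (ov (rst p r (k r)) x y)‖ ^ 2 ≤
            ∑ _r : R, (s : ℝ) ^ 2 * c * N ^ 2 :=
          Finset.sum_le_sum fun r _ => ih (rst p r (k r)) (hcost r)
        rw [Finset.sum_const, nsmul_eq_mul, Finset.card_univ] at h2
        refine le_of_mul_le_mul_left ?_ hR
        exact h1.le.trans h2
      -- the second part
      have hS2 : ∑ x : D → R, ∑ y : D → R, ‖F (ov (rst p (x p) (k (x p))) x y) -
          F (Function.update (ov (rst p (x p) (k (x p))) x y) p (x p))‖ ^ 2 ≤ c * N ^ 2 := by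
        have h1 := sum_fiber p
          (fun r x => ∑ y : D → R, ‖F (ov (rst p r (k r)) x y) -
            F (Function.update (ov (rst p r (k r)) x y) p r)‖ ^ 2)
          (fun r x r' => by simp only [ov_rst_update])
        have h2 : ∀ r, ∑ x : D → R, ∑ y : D → R, ‖F (ov (rst p r (k r)) x y) -
            F (Function.update (ov (rst p r (k r)) x y) p r)‖ ^ 2 =
            N * ∑ h, ‖F h - F (Function.update h p r)‖ ^ 2 := fun r =>
          sum_ov (rst p r (k r)) fun h => ‖F h - F (Function.update h p r)‖ ^ 2
        simp only [h2] at h1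
        have h3 : ∑ r, ∑ h : D → R, ‖F h - F (Function.update h p r)‖ ^ 2 =
            ∑ h : D → R, ∑ r, ‖F h - F (Function.update h p r)‖ ^ 2 := Finset.sum_comm
        rw [← Finset.mul_sum, h3] at h1
        refine le_of_mul_le_mul_left ?_ hR
        refine h1.le.trans ?_
        calc N * ∑ h : D → R, ∑ r, ‖F h - F (Function.update h p r)‖ ^ 2
            ≤ N * (c * N * Fintype.card R) := mul_le_mul_of_nonneg_left (hc p) hN0
          _ = Fintype.card R * (c * N ^ 2) := by ring
      -- the pointwise bound
      have hpt : ∀ x y : D → R, (s : ℝ) * ‖F y - F (ov (.ask p k) x y)‖ ^ 2 ≤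
          (s + 1) * ‖F y - F (ov (rst p (x p) (k (x p))) x y)‖ ^ 2 +
          s * (s + 1) * ‖F (ov (rst p (x p) (k (x p))) x y) -
            F (Function.update (ov (rst p (x p) (k (x p))) x y) p (x p))‖ ^ 2 := by
        intro x y
        rw [ov_ask]
        set w := ov (rst p (x p) (k (x p))) x y
        have h1 : ‖F y - F (Function.update w p (x p))‖ ≤
            ‖F y - F w‖ + ‖F w - F (Function.update w p (x p))‖ :=
          norm_sub_le_norm_sub_add_norm_sub _ _ _
        set α' := ‖F y - F w‖
        set β' := ‖F w - F (Function.update w p (x p))‖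
        have h2 : ‖F y - F (Function.update w p (x p))‖ ^ 2 ≤ (α' + β') ^ 2 := by gcongr
        have h3 : (0 : ℝ) ≤ s := Nat.cast_nonneg _
        have h4 : (s : ℝ) * ‖F y - F (Function.update w p (x p))‖ ^ 2 ≤
            s * (α' + β') ^ 2 := mul_le_mul_of_nonneg_left h2 h3
        nlinarith [sq_nonneg (α' - s * β')]
      rcases Nat.eq_zero_or_pos s with hs | hs
      · subst hs
        have h1 : ∀ x y : D → R, ov (rst p (x p) (k (x p))) x y = y := by
          intro x y
          have h2 : seen x (rst p (x p) (k (x p))) = ∅ := by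
            have h3 := hcost (x p) x
            cases h4 : rst p (x p) (k (x p)) with
            | ret a => rfl
            | ask p' k' =>
              rw [h4] at h3
              simp [QAlg.cost] at h3
          unfold ov
          rw [h2]
          simp
        have h5 : ∑ x : D → R, ∑ y : D → R, ‖F y - F (ov (.ask p k) x y)‖ ^ 2 ≤ c * N ^ 2 := by
          refine le_trans (le_of_eq ?_) hS2
          refine Finset.sum_congr rfl fun x _ => Finset.sum_congr rfl fun y _ => ?_
          rw [ov_ask, h1]
        refine h5.trans (le_of_eq ?_)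
        push_cast
        ring
      · have hs' : (0 : ℝ) < s := by exact_mod_cast hs
        refine le_of_mul_le_mul_left ?_ hs'
        calc (s : ℝ) * ∑ x : D → R, ∑ y : D → R, ‖F y - F (ov (.ask p k) x y)‖ ^ 2
            = ∑ x : D → R, ∑ y : D → R, (s : ℝ) * ‖F y - F (ov (.ask p k) x y)‖ ^ 2 := by
              rw [Finset.mul_sum]
              exact Finset.sum_congr rfl fun x _ => Finset.mul_sum _ _ _
          _ ≤ ∑ x : D → R, ∑ y : D → R,
              ((s + 1) * ‖F y - F (ov (rst p (x p) (k (x p))) x y)‖ ^ 2 +
                s * (s + 1) * ‖F (ov (rst p (x p) (k (x p))) x y) -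
                  F (Function.update (ov (rst p (x p) (k (x p))) x y) p (x p))‖ ^ 2) :=
              Finset.sum_le_sum fun x _ => Finset.sum_le_sum fun y _ => hpt x y
          _ = (s + 1) * ∑ x : D → R, ∑ y : D → R,
                ‖F y - F (ov (rst p (x p) (k (x p))) x y)‖ ^ 2 +
              s * (s + 1) * ∑ x : D → R, ∑ y : D → R,
                ‖F (ov (rst p (x p) (k (x p))) x y) -
                  F (Function.update (ov (rst p (x p) (k (x p))) x y) p (x p))‖ ^ 2 := by
              simp only [Finset.sum_add_distrib, Finset.mul_sum]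
          _ ≤ (s + 1) * ((s : ℝ) ^ 2 * c * N ^ 2) + s * (s + 1) * (c * N ^ 2) := by gcongr
          _ = s * (((s + 1 : ℕ) : ℝ) ^ 2 * c * N ^ 2) := by
              push_cast
              ring

end Pool.Agent.QKA99
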