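import Pool.Agent.QKA99.Prot

/-!
# Probabilities as functions of low degree; the derivative along disjoint blocks
-/

set_option autoImplicit false
set_option linter.unusedSectionVars false

open scoped BigOperators

namespace Pool.Agent.QKA99

open Pool.Agent.PKE70 Pool.Agent.QPKE99

section Mul

variable {D R E E' E'' : Type} [AddCommGroup E] [AddCommGroup E'] [AddCommGroup E'']

/-- degrees add up under biadditive maps -/
lemma Deg.bilin {d e : ℕ} {a : (D → R) → E} {b : (D → R) → E'} (ha : Deg d a) (hb : Deg e b)
    (m : E →+ E' →+ E'') : Deg (d + e) (fun f => m (a f) (b f)) := by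
  classical
  unfold Deg at ha
  induction ha using AddSubmonoid.closure_induction with
  | mem u hu =>
    obtain ⟨S, hS, hu⟩ := hu
    unfold Deg at hb
    induction hb using AddSubmonoid.closure_induction with
    | mem v hv =>
      obtain ⟨S', hS', hv⟩ := hv
      refine AddSubmonoid.subset_closure ⟨S ∪ S', ?_, fun x y hxy => ?_⟩
      · exact (Finset.card_union_le _ _).trans (Nat.add_le_add hS hS')
      · have h1 : u x = u y := hu fun i hi => hxy i (by
          rw [Finset.mem_coe] at hi
          simp [hi])
        have h2 : v x = v y := hv fun i hi => hxy i (by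
          rw [Finset.mem_coe] at hi
          simp [hi])
        simp only [h1, h2]
    | zero =>
      have : (fun f => m (u f) ((0 : (D → R) → E') f)) = (0 : (D → R) → E'') := by
        ext f
        simp
      rw [this]
      exact AddSubmonoid.zero_mem _
    | add v w _ _ hv hw =>
      have : (fun f => m (u f) ((v + w) f)) =
          (fun f => m (u f) (v f)) + fun f => m (u f) (w f) := by
        ext f
        simp
      rw [this]
      exact AddSubmonoid.add_mem _ hv hw
  | zero =>
    have : (fun f => m ((0 : (D → R) → E) f) (b f)) = (0 : (D → R) → E'') := by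
      ext f
      simp
    rw [this]
    exact AddSubmonoid.zero_mem _
  | add u v _ _ hu hv =>
    have : (fun f => m ((u + v) f) (b f)) =
        (fun f => m (u f) (b f)) + fun f => m (v f) (b f) := by
      ext f
      simp
    rw [this]
    exact AddSubmonoid.add_mem _ hu hv

lemma Deg.mul {d e : ℕ} {a b : (D → R) → ℝ} (ha : Deg d a) (hb : Deg e b) :
    Deg (d + e) (fun f => a f * b f) :=
  ha.bilin hb AddMonoidHom.mul

/-- the squared norm of a vector of degree `d` has degree `2 d` -/
lemma Deg.normSq {E : Type} [NormedAddCommGroup E] [InnerProductSpace ℂ E] {d : ℕ}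
    {v : (D → R) → E} (hv : Deg d v) : Deg (2 * d) (fun f => ‖v f‖ ^ 2) := by
  have h := hv.bilin hv (AddMonoidHom.mk'
    (fun x => AddMonoidHom.mk' (fun y => RCLike.re (inner ℂ x y)) fun y z => by
      rw [inner_add_right, map_add]) fun x y => by
      ext z
      simp)
  rw [← two_mul] at h
  have h2 : (fun f => ‖v f‖ ^ 2) = fun f => RCLike.re (inner ℂ (v f) (v f)) := by
    ext f
    rw [inner_self_eq_norm_sq]
  rw [h2]
  exact h

end Mul

section Circuits

variable {D R W α : Type} [AddCommGroup R] [Fintype R] [Fintype W] {q : ℕ}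

lemma deg_circuit_state (K : Circuit D R W α q) (t : ℕ) : Deg t (fun f => K.state f t) := by
  classical
  induction t with
  | zero => exact Deg.const _
  | succ t ih => exact (ih.gate (K.site t)).unitary (K.U (t + 1))

lemma circuit_prob_eq (K : Circuit D R W α q) (f : D → R) (a : α) :
    K.prob f a = ‖proj (fun i => K.out i = a) (K.state f q)‖ ^ 2 := by
  classical
  unfold Circuit.prob
  rw [EuclideanSpace.norm_sq_eq]
  refine Finset.sum_congr rfl fun i _ => ?_
  rw [proj_apply]
  by_cases h : K.out i = a <;> simp [h]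

/-- the output probabilities of a circuit with `q` oracle gates have degree `2 q` -/
lemma deg_circuit_prob (K : Circuit D R W α q) (a : α) :
    Deg (2 * q) (fun f => K.prob f a) := by
  have h := ((deg_circuit_state K q).proj fun i => K.out i = a).normSq
  simpa only [← circuit_prob_eq] using h

end Circuits

section Blocks

open Polynomial

theorem sum_sub_le_of_moebius {ι : Type} [Fintype ι] [DecidableEq ι] (e : ℕ) (φ : Finset ι → ℝ)
    (hφ0 : ∀ T, 0 ≤ φ T) (hφ1 : ∀ T, φ T ≤ 1)
    (hm : ∀ U : Finset ι, e < U.card → ∑ T ∈ U.powerset, (-1) ^ T.card * φ T = 0) :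
    ∑ i, (φ {i} - φ ∅) ≤ (e : ℝ) ^ 2 := by
  set c : Finset ι → ℝ := fun U => (-1) ^ U.card * ∑ T ∈ U.powerset, (-1) ^ T.card * φ T with hc
  set P : ℝ[X] := ∑ U : Finset ι, C (c U) * X ^ U.card with hP
  have hPdeg : P.natDegree ≤ e := by
    refine Polynomial.natDegree_sum_le_of_forall_le _ _ fun U _ => ?_
    by_cases hU : e < U.card
    · have : c U = 0 := by simp only [hc]; rw [hm U hU, mul_zero]
      rw [this]
      simp
    · exact (Polynomial.natDegree_C_mul_X_pow_le _ _).trans (by omega)
  have hPeval : ∀ p : ℝ, P.eval p =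
      ∑ T : Finset ι, φ T * (p ^ T.card * (1 - p) ^ (Fintype.card ι - T.card)) := by
    intro p
    rw [← eval_moebius, hP, Polynomial.eval_finsetSum]
    refine Finset.sum_congr rfl fun U _ => ?_
    rw [Polynomial.eval_mul, Polynomial.eval_C, Polynomial.eval_pow, Polynomial.eval_X]
  have hPbd : ∀ p : ℝ, 0 ≤ p → p ≤ 1 → 0 ≤ P.eval p ∧ P.eval p ≤ 1 := by
    intro p hp0 hp1
    rw [hPeval]
    have hnn : ∀ T : Finset ι, 0 ≤ p ^ T.card * (1 - p) ^ (Fintype.card ι - T.card) := by
      intro T
      have : 0 ≤ 1 - p := by linarith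
      positivity
    refine ⟨Finset.sum_nonneg fun T _ => mul_nonneg (hφ0 T) (hnn T), ?_⟩
    have h3 := Finset.sum_pow_mul_eq_add_pow p (1 - p) (Finset.univ : Finset ι)
    rw [Finset.powerset_univ, Finset.card_univ, show p + (1 - p) = 1 by ring, one_pow] at h3
    refine le_of_le_of_eq (Finset.sum_le_sum fun T _ => ?_) h3
    exact mul_le_of_le_one_left (hnn T) (hφ1 T)
  have hcoeff : P.derivative.eval 0 = ∑ i, (φ {i} - φ ∅) := by
    have h4 : P.derivative.eval 0 = P.coeff 1 := by
      rw [← Polynomial.coeff_zero_eq_eval_zero, Polynomial.coeff_derivative]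
      simp
    rw [h4, hP, Polynomial.finsetSum_coeff]
    have h5 : ∀ U : Finset ι, (C (c U) * X ^ U.card).coeff 1 = if U.card = 1 then c U else 0 := by
      intro U
      rw [Polynomial.coeff_C_mul, Polynomial.coeff_X_pow]
      by_cases h : U.card = 1
      · simp [h]
      · have h' : ¬ (1 = U.card) := fun h' => h h'.symm
        simp [h, h']
    simp only [h5]
    rw [← Finset.sum_filter]
    have h6 : (Finset.univ.filter fun U : Finset ι => U.card = 1) =
        Finset.univ.image fun i : ι => ({i} : Finset ι) := by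
      ext U
      simp only [Finset.mem_filter, Finset.mem_univ, true_and, Finset.mem_image,
        Finset.card_eq_one]
      exact ⟨fun ⟨i, hi⟩ => ⟨i, hi.symm⟩, fun ⟨i, hi⟩ => ⟨i, hi.symm⟩⟩
    rw [h6, Finset.sum_image (fun i _ j _ h => Finset.singleton_injective h)]
    refine Finset.sum_congr rfl fun i _ => ?_
    simp only [hc]
    have h8 : ({i} : Finset ι).powerset = {∅, {i}} := by
      ext T
      simp [Finset.subset_singleton_iff]
    rw [Finset.card_singleton, h8, Finset.sum_pair (Finset.singleton_ne_empty i).symm,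
      Finset.card_singleton, Finset.card_empty]
    ring
  set Q : ℝ[X] := C 1 - C 2 * P.comp (C (1 / 2) - C (1 / 2) * X) with hQ
  have hlin : (C (1 / 2 : ℝ) - C (1 / 2) * X).natDegree ≤ 1 := by
    compute_degree
  have hQdeg : Q.degree ≤ (e : ℕ) := by
    refine Polynomial.degree_le_of_natDegree_le ?_
    rw [hQ]
    refine (Polynomial.natDegree_sub_le _ _).trans (max_le (by simp) ?_)
    refine (Polynomial.natDegree_C_mul_le _ _).trans ?_
    refine Polynomial.natDegree_comp_le.trans ?_
    calc P.natDegree * (C (1 / 2 : ℝ) - C (1 / 2) * X).natDegree ≤ e * 1 :=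
          Nat.mul_le_mul hPdeg hlin
      _ = e := by ring
  have hQbd : ∀ x ∈ Set.Icc (-1 : ℝ) 1, |Q.eval x| ≤ 1 := by
    rintro x ⟨hx1, hx2⟩
    have h9 := hPbd (1 / 2 - 1 / 2 * x) (by linarith) (by linarith)
    rw [hQ, Polynomial.eval_sub, Polynomial.eval_mul, Polynomial.eval_C, Polynomial.eval_C,
      Polynomial.eval_comp, Polynomial.eval_sub, Polynomial.eval_mul, Polynomial.eval_C,
      Polynomial.eval_X, abs_le]
    exact ⟨by linarith, by linarith⟩
  have hmar := Polynomial.Chebyshev.eval_iterate_derivative_le_of_forall_abs_le_one (k := 1)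
    (le_refl (1 : ℝ)) hQdeg hQbd
  simp only [Function.iterate_one] at hmar
  rw [Polynomial.Chebyshev.derivative_T_eval_one] at hmar
  have hder : Q.derivative.eval 1 = P.derivative.eval 0 := by
    rw [hQ, Polynomial.derivative_sub, Polynomial.derivative_C, zero_sub,
      Polynomial.derivative_C_mul, Polynomial.derivative_comp, Polynomial.eval_neg,
      Polynomial.eval_mul, Polynomial.eval_mul, Polynomial.eval_comp]
    have h8 : (C (1 / 2 : ℝ) - C (1 / 2) * X).eval 1 = 0 := by simp
    rw [h8]
    simp
  rw [hder, hcoeff] at hmar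
  push_cast at hmar
  exact hmar

variable {D R : Type} [DecidableEq D]

/-- The increments of a function of degree `e` with values in `[0, 1]` along disjoint blocks. -/
theorem sum_sub_le {e : ℕ} {b : (D → R) → ℝ} (hb : Deg e b) (h0 : ∀ y, 0 ≤ b y)
    (h1 : ∀ y, b y ≤ 1) (f : D → R) (F : Finset (Finset D))
    (hF : (F : Set (Finset D)).PairwiseDisjoint id) (z : Finset D → D → R)
    (hz : ∀ S ∈ F, ∀ x, x ∉ S → z S x = f x) :
    ∑ S ∈ F, (b (z S) - b f) ≤ (e : ℝ) ^ 2 := by
  classical
  obtain ⟨c, hc⟩ : ∃ c : D → Option F, ∀ x i, c x = some i ↔ x ∈ i.1 := by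
    refine ⟨fun x => if h : ∃ i : F, x ∈ i.1 then some h.choose else none, fun x i => ?_⟩
    by_cases h : ∃ i : F, x ∈ i.1
    · simp only [h, dif_pos, Option.some.injEq]
      constructor
      · intro h'
        rw [← h']
        exact h.choose_spec
      · intro h'
        by_contra hcon
        have hd : Disjoint h.choose.1 i.1 :=
          hF h.choose.2 i.2 fun h'' => hcon (Subtype.ext h'')
        exact Finset.disjoint_left.mp hd h.choose_spec h'
    · simp only [h, dif_neg, not_false_iff]
      constructor
      · intro h'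
        exact absurd h' (by simp)
      · intro h'
        exact absurd ⟨i, h'⟩ h
  have hemp : blk c f (fun i : F => z i.1) ∅ = f := by
    ext x
    unfold blk
    rcases c x with _ | j <;> simp
  have hsing : ∀ i : F, blk c f (fun i : F => z i.1) {i} = z i.1 := by
    intro i
    ext x
    unfold blk
    rcases hcx : c x with _ | j
    · have : x ∉ i.1 := fun h => by simpa [hcx] using (hc x i).mpr h
      exact (hz i.1 i.2 x this).symm
    · by_cases hji : j = i
      · subst hji
        simp
      · have : x ∉ i.1 := fun h => by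
          have h' := (hc x i).mpr h
          rw [hcx] at h'
          exact hji (Option.some.inj h')
        simp [hji, hz i.1 i.2 x this]
  have key := sum_sub_le_of_moebius (ι := F) e (fun T => b (blk c f (fun i : F => z i.1) T))
    (fun T => h0 _) (fun T => h1 _) (fun U hU => by
      have h2 := blk_alt_eq_zero hb c f (fun i : F => z i.1) U hU
      refine Eq.trans (Finset.sum_congr rfl fun T _ => ?_) h2
      rw [zsmul_eq_mul]
      push_cast
      ring)
  simp only [hemp, hsing] at key
  rw [← Finset.sum_coe_sort F fun S => b (z S) - b f]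
  exact key

/-- If the value of a function of degree `e` with values in `[0, 1]` can be raised to `c` on each
set of a disjoint family, then it was at least `c - e ^ 2 / m`, `m` the number of sets. -/
theorem card_mul_sub_le {e : ℕ} {b : (D → R) → ℝ} (hb : Deg e b) (h0 : ∀ y, 0 ≤ b y)
    (h1 : ∀ y, b y ≤ 1) (f : D → R) (c : ℝ) (F : Finset (Finset D))
    (hF : (F : Set (Finset D)).PairwiseDisjoint id)
    (hz : ∀ S ∈ F, ∃ z : D → R, (∀ x, x ∉ S → z x = f x) ∧ c ≤ b z) :
    F.card * (c - b f) ≤ (e : ℝ) ^ 2 := by
  classical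
  have hz' : ∀ S : Finset D, ∃ z : D → R, S ∈ F → (∀ x, x ∉ S → z x = f x) ∧ c ≤ b z := by
    intro S
    by_cases h : S ∈ F
    · obtain ⟨z, h2⟩ := hz S h
      exact ⟨z, fun _ => h2⟩
    · exact ⟨f, fun h' => absurd h' h⟩
  choose z hz2 using hz'
  refine le_trans ?_ (sum_sub_le hb h0 h1 f F hF z fun S hS => (hz2 S hS).1)
  rw [← nsmul_eq_mul, ← Finset.sum_const]
  exact Finset.sum_le_sum fun S hS => by linarith [(hz2 S hS).2]

end Blocks

end Pool.Agent.QKA99
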