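import Pool.Agent.QKA99.Hit

/-!
# The states of the parties are functions of low degree of the oracle
-/

set_option autoImplicit false
set_option linter.unusedSectionVars false

open scoped BigOperators

namespace Pool.Agent.QKA99

open Pool.Agent.PKE70 Pool.Agent.QPKE99

variable {D R W W' M K : Type} [AddCommGroup R] [Fintype R] [Fintype W] [Fintype W']

lemma proj_apply (P : R × W → Prop) [DecidablePred P] (v : EuclideanSpace ℂ (R × W)) (i : R × W) :
    proj P v i = if P i then v i else 0 := by
  classical
  unfold proj
  by_cases h : P i <;> simp [h]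

lemma proj_add (P : R × W → Prop) (u v : EuclideanSpace ℂ (R × W)) :
    proj P (u + v) = proj P u + proj P v := by
  classical
  ext i
  rw [PiLp.add_apply, proj_apply, proj_apply, proj_apply, PiLp.add_apply]
  by_cases h : P i <;> simp [h]

lemma Deg.proj {d : ℕ} {v : (D → R) → EuclideanSpace ℂ (R × W)} (hv : Deg d v)
    (P : R × W → Prop) : Deg d (fun f => proj P (v f)) := by
  classical
  exact hv.comp (AddMonoidHom.mk' (QKA99.proj P) (proj_add P))

lemma Deg.unitary {d : ℕ} {v : (D → R) → EuclideanSpace ℂ (R × W)} (hv : Deg d v)
    (U : EuclideanSpace ℂ (R × W) ≃ₗᵢ[ℂ] EuclideanSpace ℂ (R × W)) :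
    Deg d (fun f => U (v f)) := by
  classical
  exact hv.comp (AddMonoidHom.mk' (fun u => U u) (fun u v => map_add U u v))

lemma gate_coord (s : W → Option D) (f : D → R) (v : EuclideanSpace ℂ (R × W)) (i : R × W) :
    gate s f v i = v (i.1 - ((s i.2).map f).getD 0, i.2) := rfl

lemma Deg.gate {d : ℕ} {v : (D → R) → EuclideanSpace ℂ (R × W)} (hv : Deg d v)
    (s : W → Option D) : Deg (d + 1) (fun f => gate s f (v f)) := by
  classical
  unfold Deg at hv
  induction hv using AddSubmonoid.closure_induction with
  | mem g hg =>
    obtain ⟨S, hS, hg⟩ := hg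
    have hsplit : (fun f => QPKE99.gate s f (g f)) =
        fun f => ∑ w : W, QPKE99.gate s f (QKA99.proj (fun i => i.2 = w) (g f)) := by
      ext f i
      rw [WithLp.ofLp_sum, Finset.sum_apply]
      simp only [gate_coord, proj_apply]
      simp
    rw [hsplit]
    refine Deg.sum _ _ fun w _ => AddSubmonoid.subset_closure ?_
    refine ⟨S ∪ (s w).toFinset, ?_, ?_⟩
    · refine (Finset.card_union_le _ _).trans ?_
      have : (s w).toFinset.card ≤ 1 := by
        rcases s w with _ | x <;> simp
      omega
    · intro x y hxy
      have h1 : g x = g y := hg fun i hi => hxy i (by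
        rw [Finset.mem_coe] at hi
        simp [hi])
      ext i
      simp only [gate_coord, proj_apply, h1]
      by_cases hi : i.2 = w
      · have h2 : (s w).map x = (s w).map y := by
          rcases hs : s w with _ | p
          · rfl
          · have := hxy p (by simp [hs])
            simp [this]
        simp [hi, h2]
      · simp [hi]
  | zero =>
    have : (fun f : D → R => QPKE99.gate s f ((0 : (D → R) → EuclideanSpace ℂ (R × W)) f)) = 0 := by
      ext f i
      simp
    rw [this]
    exact AddSubmonoid.zero_mem _
  | add u v _ _ hu hv =>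
    have : (fun f : D → R => QPKE99.gate s f ((u + v) f)) =
        (fun f => QPKE99.gate s f (u f)) + fun f => QPKE99.gate s f (v f) := by
      ext f i
      simp
    rw [this]
    exact AddSubmonoid.add_mem _ hu hv

lemma Deg.exec (l : List (Step D R W)) : ∀ {d : ℕ} {v : (D → R) → EuclideanSpace ℂ (R × W)},
    Deg d v → Deg (d + queries l) (fun f => exec f l (v f)) := by
  induction l with
  | nil => intro d v hv; exact hv
  | cons c l ih =>
    intro d v hv
    cases c with
    | unitary U => exact ih (hv.unitary U)
    | query s =>
      have h := ih (hv.gate s)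
      have h2 : d + 1 + queries l = d + queries (Step.query s :: l) := by
        simp only [queries]
        omega
      rw [h2] at h
      exact h

lemma deg_state (A : Party D R W M K) (mine : List M → Prop) (t : List M) :
    Deg (A.cost mine t) (fun f => A.state mine f t) := by
  classical
  induction t with
  | nil => exact Deg.const _
  | cons m t ih =>
    by_cases h : mine t
    · have h1 := (ih.exec (A.prog t)).proj (fun i => A.msg t i = m)
      simp only [Party.cost, Party.state, h, if_true]
      exact h1
    · simp only [Party.cost, Party.state, h, if_false, add_zero]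
      exact ih

lemma deg_final (A : Party D R W M K) (mine : List M → Prop) (t : List M) (k : Option K) :
    Deg (A.cost mine t + queries (A.prog t)) (fun f => A.final mine f t k) :=
  ((deg_state A mine t).exec (A.prog t)).proj _

/-- If Alice's key never exceeds Bob's key, then an eavesdropper finds a key between the two. -/
theorem exists_eve [Fintype D] [LinearOrder K] [Finite K] [Nonempty K]
    (P : Protocol D R W W' M K) (n qA qB : ℕ) (hq : P.QueryBound n qA qB)
    (h : ∀ (f : D → R) (t : List M) (k k' : K), t.length = n → k' < k →
      P.prob f t (some k) (some k') = 0) :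
    ∃ Eve : List M → QAlg D R K, ∀ t : List M, t.length = n → ∀ f : D → R,
      (Eve t).cost f ≤ 2 * qA ^ 2 * qB ^ 2 ∧
        (∀ (k : K) (o : Option K), P.prob f t (some k) o ≠ 0 → k ≤ (Eve t).run f) ∧
        ∀ (k : K) (o : Option K), P.prob f t o (some k) ≠ 0 → (Eve t).run f ≤ k := by
  classical
  have key : ∀ t : List M, ∃ T : QAlg D R K, t.length = n → ∀ f : D → R,
      T.cost f ≤ 2 * qA ^ 2 * qB ^ 2 ∧
        (∀ (k : K) (o : Option K), P.prob f t (some k) o ≠ 0 → k ≤ T.run f) ∧
        ∀ (k : K) (o : Option K), P.prob f t o (some k) ≠ 0 → T.run f ≤ k := by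
    intro t
    by_cases ht : t.length = n
    · obtain ⟨hqA, hqB⟩ := hq t ht
      obtain ⟨T, hT⟩ := exists_tree qB qA
        (fun (k : K) f => P.alice.final P.turn f t (some k))
        (fun k f => P.bob.final (fun t => ¬ P.turn t) f t (some k))
        (fun k _ => ((deg_final P.alice P.turn t (some k)).mono hqA).low)
        (fun k => (deg_final P.bob _ t (some k)).mono hqB)
        (by
          intro k k' f hkk'
          have h0 := h f t k k' ht hkk'
          unfold Protocol.prob at h0
          rcases mul_eq_zero.mp h0 with h1 | h1
          · exact Or.inl (norm_eq_zero.mp (pow_eq_zero_iff (two_ne_zero)|>.mp h1))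
          · exact Or.inr (norm_eq_zero.mp (pow_eq_zero_iff (two_ne_zero)|>.mp h1)))
      refine ⟨T, fun _ f => ⟨(hT f).1.trans ?_, fun k o hk => (hT f).2.1 k ?_,
        fun k o hk => (hT f).2.2 k ?_⟩⟩
      · rcases Nat.eq_zero_or_pos qA with h0 | h0
        · subst h0
          simp
        · have : qA + 1 ≤ 2 * qA := by omega
          calc qB ^ 2 * qA * (qA + 1) ≤ qB ^ 2 * qA * (2 * qA) :=
                Nat.mul_le_mul_left _ this
            _ = 2 * qA ^ 2 * qB ^ 2 := by ring
      · intro h0
        apply hk
        unfold Protocol.prob
        rw [h0]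
        simp
      · intro h0
        apply hk
        unfold Protocol.prob
        rw [h0]
        simp
    · exact ⟨QAlg.ret (Classical.choice inferInstance), fun h' => absurd h' ht⟩
  choose Eve hEve using key
  exact ⟨Eve, hEve⟩

end Pool.Agent.QKA99
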