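import Pool.Agent.QKA99.Prot

/-!
# The probabilities of the transcripts and outputs add up to one
-/

set_option autoImplicit false
set_option linter.unusedSectionVars false

open scoped BigOperators

namespace Pool.Agent.QKA99

open Pool.Agent.PKE70 Pool.Agent.QPKE99

variable {D R W W' M K : Type} [AddCommGroup R] [Fintype R] [Fintype W] [Fintype W']

lemma norm_exec (f : D → R) (l : List (Step D R W)) : ∀ v : EuclideanSpace ℂ (R × W),
    ‖exec f l v‖ = ‖v‖ := by
  induction l with
  | nil => intro v; rfl
  | cons c l ih =>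
    intro v
    show ‖exec f l (c.apply f v)‖ = ‖v‖
    rw [ih]
    cases c with
    | unitary U => exact U.norm_map v
    | query s => exact (QPKE99.gate s f).norm_map v

open Classical in
lemma sum_proj {Z : Type} [Fintype Z] (g : R × W → Z) (v : EuclideanSpace ℂ (R × W)) :
    ∑ z, ‖proj (fun i => g i = z) v‖ ^ 2 = ‖v‖ ^ 2 := by
  simp only [EuclideanSpace.norm_sq_eq, proj_apply]
  rw [Finset.sum_comm]
  refine Finset.sum_congr rfl fun i _ => ?_
  rw [Finset.sum_eq_single (g i)]
  · simp
  · intro z _ hz
    simp [hz.symm]
  · simp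

lemma sum_final [Fintype K] (A : Party D R W M K) (mine : List M → Prop) (f : D → R)
    (t : List M) : ∑ k, ‖A.final mine f t k‖ ^ 2 = ‖A.state mine f t‖ ^ 2 := by
  unfold Party.final
  rw [sum_proj, norm_exec]

lemma sum_state_cons [Fintype M] (A : Party D R W M K) (mine : List M → Prop) (f : D → R)
    (t : List M) (h : mine t) :
    ∑ m, ‖A.state mine f (m :: t)‖ ^ 2 = ‖A.state mine f t‖ ^ 2 := by
  simp only [Party.state, h, if_true]
  rw [sum_proj, norm_exec]

lemma state_cons_of_not (A : Party D R W M K) (mine : List M → Prop) (f : D → R)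
    (t : List M) (h : ¬ mine t) (m : M) : A.state mine f (m :: t) = A.state mine f t := by
  simp only [Party.state, h, if_false]

/-- The probabilities of all transcripts of length `n` and all outputs add up to `1`. -/
theorem sum_prob [Fintype M] [Fintype K] (P : Protocol D R W W' M K) (f : D → R) (n : ℕ) :
    ∑ t : Fin n → M, ∑ k, ∑ k', P.prob f (List.ofFn t) k k' = 1 := by
  classical
  have h1 : ∀ t : List M, ∑ k, ∑ k', P.prob f t k k' =
      ‖P.alice.state P.turn f t‖ ^ 2 * ‖P.bob.state (fun t => ¬ P.turn t) f t‖ ^ 2 := by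
    intro t
    unfold Protocol.prob
    rw [← sum_final, ← sum_final, Finset.sum_mul_sum]
  simp only [h1]
  induction n with
  | zero =>
    simp [Party.state]
  | succ n ih =>
    rw [← ih, ← Equiv.sum_comp (Fin.consEquiv fun _ : Fin (n + 1) => M), Fintype.sum_prod_type,
      Finset.sum_comm]
    refine Finset.sum_congr rfl fun t _ => ?_
    have h2 : ∀ m : M, List.ofFn ((Fin.consEquiv fun _ : Fin (n + 1) => M) (m, t)) =
        m :: List.ofFn t := by
      intro m
      show List.ofFn (Fin.cons m t : Fin (n + 1) → M) = _
      rw [List.ofFn_cons]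
    simp only [h2]
    by_cases h : P.turn (List.ofFn t)
    · have h3 : ∀ m, P.bob.state (fun t => ¬ P.turn t) f (m :: List.ofFn t) =
          P.bob.state (fun t => ¬ P.turn t) f (List.ofFn t) :=
        fun m => state_cons_of_not _ _ _ _ (by simpa using h) m
      simp only [h3]
      rw [← Finset.sum_mul, sum_state_cons _ _ _ _ h]
    · simp only [state_cons_of_not P.alice P.turn f (List.ofFn t) h]
      rw [← Finset.mul_sum, sum_state_cons P.bob (fun t => ¬ P.turn t) f (List.ofFn t) h]

end Pool.Agent.QKA99
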