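import Pool.Agent.QKA99.Prob
import Pool.Agent.QKA99.Total

/-!
# Key agreement in which Bob may err
-/

set_option autoImplicit false
set_option linter.unusedSectionVars false

open scoped BigOperators

namespace Pool.Agent.QKA99

open Pool.Agent.PKE70 Pool.Agent.QPKE99

section Angle

variable {R W : Type} [Fintype R] [Fintype W]

lemma norm_proj_add (P : R × W → Prop) (x : EuclideanSpace ℂ (R × W)) :
    ‖proj P x‖ ^ 2 + ‖proj (fun i => ¬ P i) x‖ ^ 2 = ‖x‖ ^ 2 := by
  classical
  simp only [EuclideanSpace.norm_sq_eq]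
  rw [← Finset.sum_add_distrib]
  refine Finset.sum_congr rfl fun i _ => ?_
  unfold proj
  by_cases h : P i <;> simp [h]

lemma norm_proj_add_le (P Q : R × W → Prop) (hPQ : ∀ i, ¬ (P i ∧ Q i))
    (x : EuclideanSpace ℂ (R × W)) :
    ‖proj P x‖ ^ 2 + ‖proj Q x‖ ^ 2 ≤ ‖x‖ ^ 2 := by
  classical
  simp only [EuclideanSpace.norm_sq_eq]
  rw [← Finset.sum_add_distrib]
  refine Finset.sum_le_sum fun i _ => ?_
  unfold proj
  by_cases h : P i
  · have h' : ¬ Q i := fun h' => hPQ i ⟨h, h'⟩
    simp [h, h']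
  · by_cases h' : Q i <;> simp [h, h']

lemma inner_proj (P : R × W → Prop) (x y : EuclideanSpace ℂ (R × W)) :
    RCLike.re (inner ℂ x y) = RCLike.re (inner ℂ (proj P x) (proj P y)) +
      RCLike.re (inner ℂ (proj (fun i => ¬ P i) x) (proj (fun i => ¬ P i) y)) := by
  classical
  rw [← map_add]
  congr 1
  simp only [PiLp.inner_apply]
  rw [← Finset.sum_add_distrib]
  refine Finset.sum_congr rfl fun i _ => ?_
  unfold proj
  by_cases h : P i <;> simp [h]

lemma real_angle (a b c d N δ : ℝ) (hδ : 0 < δ) (hδ1 : δ ≤ 1 / 2) (h1 : a ^ 2 + b ^ 2 ≤ N ^ 2) (h2 : c ^ 2 + d ^ 2 = N ^ 2)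
    (h3 : (1 / 2 + δ) * (a ^ 2 + b ^ 2) ≤ a ^ 2) (h4 : c ^ 2 ≤ N ^ 2 / 2) :
    c * a + d * b ≤ (1 - δ ^ 2 / 2) * N ^ 2 := by
  set s := a ^ 2 + b ^ 2 with hs
  have hs0 : 0 ≤ s := by positivity
  have hN0 : 0 ≤ N ^ 2 := sq_nonneg N
  have hX : (c * a + d * b) ^ 2 + (a * d - b * c) ^ 2 = s * N ^ 2 := by
    rw [← h2, hs]
    ring
  have hZ : (a * d + b * c) ^ 2 ≤ s * N ^ 2 := by
    rw [← h2, hs]
    nlinarith [sq_nonneg (a * c - b * d)]
  have hYZ : δ * (s * N ^ 2) ≤ (a * d - b * c) * (a * d + b * c) := by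
    have h5 : (a * d - b * c) * (a * d + b * c) = a ^ 2 * N ^ 2 - s * c ^ 2 := by
      rw [← h2, hs]
      ring
    rw [h5]
    have h6 := mul_le_mul_of_nonneg_right h3 hN0
    have h7 := mul_le_mul_of_nonneg_left h4 hs0
    nlinarith
  have hδ2 : 0 ≤ 1 - δ ^ 2 / 2 := by nlinarith
  have hY : δ ^ 2 * (s * N ^ 2) ≤ (a * d - b * c) ^ 2 := by
    rcases eq_or_lt_of_le (mul_nonneg hs0 hN0) with h0 | h0
    · rw [← h0, mul_zero]
      positivity
    · have h5 : (δ * (s * N ^ 2)) ^ 2 ≤ ((a * d - b * c) * (a * d + b * c)) ^ 2 :=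
        pow_le_pow_left₀ (by positivity) hYZ 2
      have h6 : ((a * d - b * c) * (a * d + b * c)) ^ 2 ≤ (a * d - b * c) ^ 2 * (s * N ^ 2) := by
        rw [mul_pow]
        exact mul_le_mul_of_nonneg_left hZ (sq_nonneg _)
      have h7 : (δ ^ 2 * (s * N ^ 2)) * (s * N ^ 2) ≤ (a * d - b * c) ^ 2 * (s * N ^ 2) := by
        calc (δ ^ 2 * (s * N ^ 2)) * (s * N ^ 2) = (δ * (s * N ^ 2)) ^ 2 := by ring
          _ ≤ _ := h5.trans h6
      exact le_of_mul_le_mul_right h7 h0
  have hfin : (c * a + d * b) ^ 2 ≤ ((1 - δ ^ 2 / 2) * N ^ 2) ^ 2 := by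
    have h8 : s * N ^ 2 ≤ N ^ 2 * N ^ 2 := mul_le_mul_of_nonneg_right h1 hN0
    have h9 : 0 ≤ 1 - δ ^ 2 := by nlinarith
    have h10 : (1 - δ ^ 2) * (s * N ^ 2) ≤ (1 - δ ^ 2) * (N ^ 2 * N ^ 2) :=
      mul_le_mul_of_nonneg_left h8 h9
    have h11 : 0 ≤ (δ ^ 2) ^ 2 / 4 * (N ^ 2 * N ^ 2) := by positivity
    nlinarith
  exact le_of_sq_le_sq hfin (by positivity)

/-- If `x` is at most as long as `y`, and more than half of `x` but at most half of `y` lies in the
range of a projection, then the inner product of `x` and `y` is small. -/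
lemma re_inner_le (P : R × W → Prop) (x y : EuclideanSpace ℂ (R × W)) (δ : ℝ) (hδ : 0 < δ)
    (hδ1 : δ ≤ 1 / 2) (hxy : ‖x‖ ≤ ‖y‖) (hx : (1 / 2 + δ) * ‖x‖ ^ 2 ≤ ‖proj P x‖ ^ 2)
    (hy : ‖proj P y‖ ^ 2 ≤ ‖y‖ ^ 2 / 2) :
    RCLike.re (inner ℂ y x) ≤ (1 - δ ^ 2 / 2) * ‖y‖ ^ 2 := by
  rw [inner_proj P y x]
  have h1 : RCLike.re (inner ℂ (proj P y) (proj P x)) ≤ ‖proj P y‖ * ‖proj P x‖ :=
    re_inner_le_norm _ _
  have h2 : RCLike.re (inner ℂ (proj (fun i => ¬ P i) y) (proj (fun i => ¬ P i) x)) ≤
      ‖proj (fun i => ¬ P i) y‖ * ‖proj (fun i => ¬ P i) x‖ := re_inner_le_norm _ _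
  refine (add_le_add h1 h2).trans ?_
  have hx' := norm_proj_add P x
  have hy' := norm_proj_add P y
  refine real_angle ‖proj P x‖ ‖proj (fun i => ¬ P i) x‖ ‖proj P y‖
    ‖proj (fun i => ¬ P i) y‖ ‖y‖ δ hδ hδ1 ?_ hy' ?_ hy
  · rw [hx']
    exact pow_le_pow_left₀ (norm_nonneg _) hxy 2
  · rw [hx']
    exact hx

end Angle

section Tree

variable {D R W E : Type} [Fintype D] [DecidableEq D] [Fintype R] [Fintype W]

/-- A small set of coordinates that meets all sets of top order of the functions `a i`. -/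
theorem exists_hit_robust [AddCommGroup E] {I : Type} {e B N : ℕ} (n : I → ℕ)
    (a : I → (D → R) → E) (v : (D → R) → EuclideanSpace ℂ (R × W))
    (hn : ∀ i, n i ≤ B) (ha : ∀ i, Low (n i) (a i)) (hv : Deg e v) (ys : D → R)
    (hys : ∀ y, ‖v y‖ ≤ ‖v ys‖) (hne : v ys ≠ 0) (δ : ℝ) (hδ : 0 < δ)
    (hN : 4 * (e : ℝ) ^ 2 < δ ^ 2 * (N + 1))
    (h : ∀ i z, a i z ≠ 0 → RCLike.re (inner ℂ (v ys) (v z)) ≤ (1 - δ ^ 2 / 2) * ‖v ys‖ ^ 2) :
    ∃ H : Finset D, H.card ≤ N * B ∧ ∀ i (S : Finset D), S.card = n i →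
      (∃ y f, alt S (a i) y f ≠ 0) → ¬ Disjoint S H := by
  classical
  have hpos : 0 < ‖v ys‖ := norm_pos_iff.mpr hne
  have hemp : ∀ i (S : Finset D), S.card = n i → (∃ y f, alt S (a i) y f ≠ 0) → S ≠ ∅ := by
    rintro i S hS ⟨y, f, hyf⟩ rfl
    obtain ⟨z, hz1, hz2⟩ := (ha i).exists_ne ∅ hS.ge y f hyf ys
    have hz : z = ys := by
      ext x
      exact hz1 x (by simp)
    have h1 := h i z hz2
    rw [hz, inner_self_eq_norm_sq] at h1
    have : 0 < δ ^ 2 / 2 * ‖v ys‖ ^ 2 := by positivity
    linarith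
  obtain ⟨P, hP⟩ : ∃ P : Finset (Finset D) → Prop, ∀ F, P F ↔
      (F : Set (Finset D)).PairwiseDisjoint id ∧
        ∀ S ∈ F, ∃ i, S.card = n i ∧ ∃ y f, alt S (a i) y f ≠ 0 := ⟨_, fun _ => Iff.rfl⟩
  have hbound : ∀ F, P F → F.card ≤ N := by
    intro F hF
    obtain ⟨hF1, hF2⟩ := (hP F).mp hF
    set φ : (D → R) → ℝ := fun y => (1 - RCLike.re (inner ℂ (v ys) (v y)) / ‖v ys‖ ^ 2) / 2
      with hφ
    have hsq : 0 < ‖v ys‖ ^ 2 := by positivity
    have hφd : Deg e φ := by
      have h1 : Deg e (fun y => -(RCLike.re (inner ℂ (v ys) (v y)) / ‖v ys‖ ^ 2 / 2)) :=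
        hv.comp (AddMonoidHom.mk' (fun x => -(RCLike.re (inner ℂ (v ys) x) / ‖v ys‖ ^ 2 / 2))
          fun x y => by
            rw [inner_add_right, map_add]
            ring)
      have h2 : Deg e (fun _ : D → R => (1 / 2 : ℝ)) := (Deg.const _).mono (Nat.zero_le _)
      have h3 : φ = (fun _ : D → R => (1 / 2 : ℝ)) +
          fun y => -(RCLike.re (inner ℂ (v ys) (v y)) / ‖v ys‖ ^ 2 / 2) := by
        ext y
        simp only [hφ, Pi.add_apply]
        ring
      rw [h3]
      exact h2.add h1
    have habs : ∀ y, |RCLike.re (inner ℂ (v ys) (v y)) / ‖v ys‖ ^ 2| ≤ 1 := by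
      intro y
      rw [abs_div, abs_of_pos hsq, div_le_one hsq]
      calc |RCLike.re (inner ℂ (v ys) (v y))| ≤ ‖inner ℂ (v ys) (v y)‖ :=
            RCLike.abs_re_le_norm _
        _ ≤ ‖v ys‖ * ‖v y‖ := norm_inner_le_norm _ _
        _ ≤ ‖v ys‖ * ‖v ys‖ := mul_le_mul_of_nonneg_left (hys y) (norm_nonneg _)
        _ = ‖v ys‖ ^ 2 := by ring
    have hφ0 : ∀ y, 0 ≤ φ y := fun y => by
      have := (abs_le.mp (habs y)).2
      simp only [hφ]
      linarith
    have hφ1 : ∀ y, φ y ≤ 1 := fun y => by
      have := (abs_le.mp (habs y)).1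
      simp only [hφ]
      linarith
    have hφs : φ ys = 0 := by
      simp only [hφ]
      rw [inner_self_eq_norm_sq, div_self hsq.ne']
      norm_num
    have key := card_mul_sub_le hφd hφ0 hφ1 ys (δ ^ 2 / 4) F hF1 (fun S hS => by
      obtain ⟨i, hc, y, f, hi⟩ := hF2 S hS
      obtain ⟨z, hz1, hz2⟩ := (ha i).exists_ne S hc.ge y f hi ys
      refine ⟨z, hz1, ?_⟩
      have h1 := h i z hz2
      have h2 : RCLike.re (inner ℂ (v ys) (v z)) / ‖v ys‖ ^ 2 ≤ 1 - δ ^ 2 / 2 := by
        rw [div_le_iff₀ hsq]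
        exact h1
      simp only [hφ]
      linarith)
    rw [hφs, sub_zero] at key
    by_contra hcon
    push Not at hcon
    have h1 : (N : ℝ) + 1 ≤ F.card := by exact_mod_cast hcon
    have h2 : δ ^ 2 * ((N : ℝ) + 1) ≤ δ ^ 2 * F.card :=
      mul_le_mul_of_nonneg_left h1 (by positivity)
    nlinarith
  obtain ⟨F, hF, hmax⟩ := Finset.exists_max_image
    (Finset.univ.filter fun F => P F) Finset.card
    ⟨∅, Finset.mem_filter.mpr ⟨Finset.mem_univ _, (hP ∅).mpr ⟨by simp, by simp⟩⟩⟩
  have hPF := (Finset.mem_filter.mp hF).2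
  obtain ⟨hF1, hF2⟩ := (hP F).mp hPF
  refine ⟨F.biUnion id, ?_, ?_⟩
  · calc (F.biUnion id).card ≤ ∑ S ∈ F, S.card := Finset.card_biUnion_le
      _ ≤ ∑ _S ∈ F, B := Finset.sum_le_sum fun S hS => by
          obtain ⟨i, hi, -⟩ := hF2 S hS
          exact hi.le.trans (hn i)
      _ = F.card * B := by rw [Finset.sum_const, smul_eq_mul]
      _ ≤ N * B := Nat.mul_le_mul_right _ (hbound F hPF)
  · intro i S hS hSi hdis
    have hdis' : ∀ S' ∈ F, Disjoint S S' := by
      intro S' hS'
      exact Finset.disjoint_of_subset_right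
        (Finset.subset_biUnion_of_mem (fun S : Finset D => id S) hS') hdis
    have hSF : S ∉ F := by
      intro hSF
      have h0 := hdis' S hSF
      rw [disjoint_self] at h0
      exact hemp i S hS hSi h0
    have hnew : P (insert S F) := by
      rw [hP]
      constructor
      · rw [Finset.coe_insert]
        refine hF1.insert fun S' hS' _ => hdis' S' hS'
      · intro S' hS'
        rcases Finset.mem_insert.mp hS' with rfl | hS'
        · exact ⟨i, hS, hSi⟩
        · exact hF2 S' hS'
    have := hmax (insert S F) (Finset.mem_filter.mpr ⟨Finset.mem_univ _, hnew⟩)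
    rw [Finset.card_insert_of_notMem hSF] at this
    omega

lemma Low.res_same [AddCommGroup E] {d : ℕ} {a : (D → R) → E} (ha : Low d a) (H : Finset D)
    (g : D → R) : Low d (QKA99.res H g a) := by
  have h1 : Low (d + 1) a := fun S hS y f => ha S (by omega) y f
  refine h1.res H g fun S hS => ?_
  rintro ⟨y, f, hyf⟩
  exact absurd (ha S (by omega) y f) hyf

/-- Suppose that, wherever `a k` is not zero, more than half of the vector `v` lies in the part of
the key `k`. Then a shallow decision tree finds the only key `k` with `a k ≠ 0`, if `v ≠ 0`. -/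
theorem exists_tree_robust [Nonempty R] {K : Type} [Nonempty K] [AddCommGroup E] {e B N : ℕ}
    (κ : R × W → Option K) (δ : ℝ) (hδ : 0 < δ) (hδ1 : δ ≤ 1 / 2)
    (hN : 4 * (e : ℝ) ^ 2 < δ ^ 2 * (N + 1)) (s : ℕ) :
    ∀ (L : K → ℕ) (a : K → (D → R) → E) (v : (D → R) → EuclideanSpace ℂ (R × W)),
      (∀ k, L k ≤ B + 1) → (∀ k k', k ≠ k' → 1 ≤ L k → 1 ≤ L k' → L k + L k' ≤ s + 1) →
      (∀ k, L k = 0 → ∀ f, a k f = 0) → (∀ k d, L k = d + 1 → Low d (a k)) → Deg e v →
      (∀ k f, a k f ≠ 0 → (1 / 2 + δ) * ‖v f‖ ^ 2 ≤ ‖proj (fun i => κ i = some k) (v f)‖ ^ 2) →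
      ∃ T : QAlg D R K, ∀ f, T.cost f ≤ s * (N * B) ∧
        ∀ k, a k f ≠ 0 → v f ≠ 0 → T.run f = k := by
  classical
  induction s with
  | zero =>
    intro L a v _ hL h0 _ _ _
    by_cases h : ∃ k, 1 ≤ L k
    · obtain ⟨k, hk⟩ := h
      refine ⟨QAlg.ret k, fun f => ⟨Nat.zero_le _, fun k' hk' _ => ?_⟩⟩
      by_contra hne
      have h1 : 1 ≤ L k' := by
        by_contra hc
        exact hk' (h0 k' (by omega) f)
      have := hL k k' hne hk h1
      omega
    · push Not at h
      refine ⟨QAlg.ret (Classical.choice inferInstance), fun f =>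
        ⟨Nat.zero_le _, fun k' hk' _ => absurd (h0 k' ?_ f) hk'⟩⟩
      have := h k'
      omega
  | succ s ih =>
    intro L a v hB hL h0 hlow hv h
    by_cases hv0 : ∃ f, v f ≠ 0
    · obtain ⟨f₀, hf₀⟩ := hv0
      obtain ⟨ys, hys⟩ : ∃ ys : D → R, ∀ y, ‖v y‖ ≤ ‖v ys‖ := by
        have : Nonempty (D → R) := ⟨f₀⟩
        exact Finite.exists_max fun y => ‖v y‖
      have hne : v ys ≠ 0 := by
        intro h0
        have := hys f₀
        rw [h0, norm_zero] at this
        exact hf₀ (norm_le_zero_iff.mp this)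
      obtain ⟨m, hm⟩ : ∃ m : K, ∀ k, k ≠ m →
          ‖proj (fun i => κ i = some k) (v ys)‖ ^ 2 ≤ ‖v ys‖ ^ 2 / 2 := by
        by_cases hex : ∃ m, ‖v ys‖ ^ 2 / 2 < ‖proj (fun i => κ i = some m) (v ys)‖ ^ 2
        · obtain ⟨m, hm⟩ := hex
          refine ⟨m, fun k hk => ?_⟩
          have := norm_proj_add_le (fun i => κ i = some k) (fun i => κ i = some m)
            (fun i hi => hk (Option.some.inj (hi.1.symm.trans hi.2))) (v ys)
          linarith
        · push Not at hex
          exact ⟨Classical.choice inferInstance, fun k _ => hex k⟩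
      obtain ⟨H, hH, hH'⟩ := exists_hit_robust (I := {k : K // k ≠ m ∧ 1 ≤ L k}) (B := B)
        (fun k => L k.1 - 1) (fun k => a k.1) v (fun k => by
          have := hB k.1
          omega)
        (fun k => hlow k.1 _ (by
          have := k.2.2
          omega)) hv ys hys hne δ hδ hN
        (fun k z hz => re_inner_le (fun i => κ i = some k.1) (v z) (v ys) δ hδ hδ1 (hys z)
          (h k.1 z hz) (hm k.1 k.2.1))
      obtain ⟨T, hT⟩ := exists_askAll
        (fun f t => ∀ k, a k f ≠ 0 → v f ≠ 0 → t = k) (s * (N * B)) H (fun _ => True) (by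
          intro g
          obtain ⟨T, hT⟩ := ih (fun k => if k = m then L k else L k - 1)
            (fun k => res H g (a k)) (res H g v)
            (by
              intro k
              have := hB k
              split_ifs <;> omega)
            (by
              intro k k' hkk' h1 h2
              by_cases hk : k = m
              · have hk' : k' ≠ m := fun h' => hkk' (hk.trans h'.symm)
                rw [if_pos hk] at h1 ⊢
                rw [if_neg hk'] at h2 ⊢
                have := hL k k' hkk' h1 (by omega)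
                omega
              · rw [if_neg hk] at h1 ⊢
                have h3 : 1 ≤ L k' := by
                  split_ifs at h2 <;> omega
                have := hL k k' hkk' (by omega) h3
                split_ifs <;> omega)
            (by
              intro k hk f
              show a k (H.piecewise g f) = 0
              by_cases hkm : k = m
              · rw [if_pos hkm] at hk
                exact h0 k hk _
              · rw [if_neg hkm] at hk
                rcases Nat.eq_zero_or_pos (L k) with h1 | h1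
                · exact h0 k h1 _
                · by_contra hne'
                  refine hH' ⟨k, hkm, h1⟩ ∅ ?_ ⟨H.piecewise g f, f, ?_⟩
                    (Finset.disjoint_empty_left _)
                  · simp [hk]
                  · simpa [alt] using hne')
            (by
              intro k d hk
              by_cases hkm : k = m
              · rw [if_pos hkm] at hk
                exact (hlow k d hk).res_same H g
              · rw [if_neg hkm] at hk
                refine (hlow k (d + 1) (by omega)).res H g fun S hS hne' hdis => ?_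
                exact hH' ⟨k, hkm, by omega⟩ S (by simp only [hS]; omega) hne' hdis)
            (hv.res H g)
            (fun k f hk => h k _ hk)
          refine ⟨T, fun f _ hfg => ⟨(hT f).1, fun k hk hk' => (hT f).2 k ?_ ?_⟩⟩
          · rwa [res_apply_of_eq _ _ _ _ hfg]
          · rwa [res_apply_of_eq _ _ _ _ hfg])
      refine ⟨T, fun f => ⟨(hT f trivial).1.trans ?_, (hT f trivial).2⟩⟩
      calc H.card + s * (N * B) ≤ N * B + s * (N * B) := by omega
        _ = (s + 1) * (N * B) := by ring
    · push Not at hv0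
      exact ⟨QAlg.ret (Classical.choice inferInstance), fun f =>
        ⟨Nat.zero_le _, fun k _ hk => absurd (hv0 f) hk⟩⟩

end Tree

section Protocols

variable {D R W W' M K : Type} [AddCommGroup R] [Fintype R] [Fintype W] [Fintype W']

lemma proj_proj_of_imp (P Q : R × W → Prop) (h : ∀ i, P i → Q i)
    (x : EuclideanSpace ℂ (R × W)) : proj P (proj Q x) = proj P x := by
  classical
  ext i
  rw [proj_apply, proj_apply, proj_apply]
  by_cases hP : P i
  · simp [hP, h i hP]
  · simp [hP]

/-- the part of the final state of a party in which it outputs a key -/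
noncomputable def Party.decided (A : Party D R W M K) (mine : List M → Prop) (f : D → R)
    (t : List M) : EuclideanSpace ℂ (R × W) :=
  proj (fun i => A.key t i ≠ none) (exec f (A.prog t) (A.state mine f t))

lemma sum_final_some [Fintype K] (A : Party D R W M K) (mine : List M → Prop) (f : D → R)
    (t : List M) : ∑ k, ‖A.final mine f t (some k)‖ ^ 2 = ‖A.decided mine f t‖ ^ 2 := by
  have h1 := sum_final A mine f t
  rw [Fintype.sum_option, ← norm_exec f (A.prog t) (A.state mine f t)] at h1
  have h2 := norm_proj_add (fun i => A.key t i = none) (exec f (A.prog t) (A.state mine f t))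
  have h3 : A.final mine f t none =
      proj (fun i => A.key t i = none) (exec f (A.prog t) (A.state mine f t)) := rfl
  have h4 : A.decided mine f t =
      proj (fun i => ¬ A.key t i = none) (exec f (A.prog t) (A.state mine f t)) := rfl
  rw [h3] at h1
  rw [h4]
  linarith

/-- If, given the transcript and Alice's key, and given that Bob outputs a key, it is the same key
with probability at least `1 / 2 + δ`, then an eavesdropper finds Alice's key. -/
theorem exists_eve_robust [Fintype D] [Fintype K] [Nonempty K]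
    (P : Protocol D R W W' M K) (n qA qB : ℕ) (hq : P.QueryBound n qA qB) (δ : ℝ) (hδ : 0 < δ)
    (h : ∀ (f : D → R) (t : List M) (k : K), t.length = n →
      (1 / 2 + δ) * ∑ k', P.prob f t (some k) (some k') ≤ P.prob f t (some k) (some k)) :
    ∃ Eve : List M → QAlg D R K, ∀ t : List M, t.length = n → ∀ f : D → R,
      ((Eve t).cost f : ℝ) ≤ 12 * (qA : ℝ) ^ 2 * (qB : ℝ) ^ 2 / δ ^ 2 ∧
        ∀ k k' : K, P.prob f t (some k) (some k') ≠ 0 → (Eve t).run f = k := by
  classical
  have hsum : ∀ (f : D → R) (t : List M) (k : K), ∑ k', P.prob f t (some k) (some k') =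
      ‖P.alice.final P.turn f t (some k)‖ ^ 2 *
        ‖P.bob.decided (fun t => ¬ P.turn t) f t‖ ^ 2 := by
    intro f t k
    unfold Protocol.prob
    rw [← Finset.mul_sum, sum_final_some]
  have key : ∀ t : List M, ∃ T : QAlg D R K, t.length = n → ∀ f : D → R,
      ((T.cost f : ℝ) ≤ 12 * (qA : ℝ) ^ 2 * (qB : ℝ) ^ 2 / δ ^ 2) ∧
        ∀ k k' : K, P.prob f t (some k) (some k') ≠ 0 → T.run f = k := by
    intro t
    by_cases ht : t.length = n
    · have hfin : ∀ (k : K) (f : D → R), proj (fun i => P.bob.key t i = some k)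
          (P.bob.decided (fun t => ¬ P.turn t) f t) =
            P.bob.final (fun t => ¬ P.turn t) f t (some k) := by
        intro k f
        exact proj_proj_of_imp _ _ (fun i hi => by simp [hi]) _
      have hpt : ∀ (k : K) (f : D → R), P.alice.final P.turn f t (some k) ≠ 0 →
          (1 / 2 + δ) * ‖P.bob.decided (fun t => ¬ P.turn t) f t‖ ^ 2 ≤
            ‖proj (fun i => P.bob.key t i = some k)
              (P.bob.decided (fun t => ¬ P.turn t) f t)‖ ^ 2 := by
        intro k f hk
        have h1 := h f t k ht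
        rw [hsum] at h1
        unfold Protocol.prob at h1
        have h2 : 0 < ‖P.alice.final P.turn f t (some k)‖ ^ 2 := by
          have := norm_pos_iff.mpr hk
          positivity
        rw [hfin]
        refine le_of_mul_le_mul_left ?_ h2
        calc ‖P.alice.final P.turn f t (some k)‖ ^ 2 * ((1 / 2 + δ) *
              ‖P.bob.decided (fun t => ¬ P.turn t) f t‖ ^ 2)
            = (1 / 2 + δ) * (‖P.alice.final P.turn f t (some k)‖ ^ 2 *
              ‖P.bob.decided (fun t => ¬ P.turn t) f t‖ ^ 2) := by ring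
          _ ≤ _ := h1
      have hne : ∀ (f : D → R) (k k' : K), P.prob f t (some k) (some k') ≠ 0 →
          P.alice.final P.turn f t (some k) ≠ 0 ∧
            P.bob.decided (fun t => ¬ P.turn t) f t ≠ 0 := by
        intro f k k' hk
        constructor
        · intro h0
          apply hk
          unfold Protocol.prob
          rw [h0]
          simp
        · intro h0
          apply hk
          unfold Protocol.prob
          rw [← hfin, h0]
          have h1 : proj (fun i => P.bob.key t i = some k')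
              (0 : EuclideanSpace ℂ (R × W')) = 0 := by
            ext i
            rw [proj_apply]
            simp
          rw [h1]
          simp
      by_cases hδ1 : δ ≤ 1 / 2
      · obtain ⟨hqA, hqB⟩ := hq t ht
        set N : ℕ := ⌊4 * (qB : ℝ) ^ 2 / δ ^ 2⌋₊ with hNdef
        have hd2 : 0 < δ ^ 2 := by positivity
        have hN : 4 * (qB : ℝ) ^ 2 < δ ^ 2 * (N + 1) := by
          have := Nat.lt_floor_add_one (4 * (qB : ℝ) ^ 2 / δ ^ 2)
          rw [div_lt_iff₀ hd2, mul_comm _ (δ ^ 2)] at this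
          exact this
        have hN' : (N : ℝ) ≤ 4 * (qB : ℝ) ^ 2 / δ ^ 2 := Nat.floor_le (by positivity)
        obtain ⟨T, hT⟩ := exists_tree_robust (e := qB) (B := qA) (N := N)
          (fun i => P.bob.key t i) δ hδ hδ1 hN (2 * qA + 1) (fun _ : K => qA + 1)
          (fun (k : K) f => P.alice.final P.turn f t (some k))
          (fun f => P.bob.decided (fun t => ¬ P.turn t) f t)
          (fun _ => le_rfl) (fun _ _ _ _ _ => by omega)
          (fun k hk => absurd hk (by omega))
          (fun k d hd => by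
            have hd' : d = qA := by omega
            subst hd'
            exact ((deg_final P.alice P.turn t (some k)).mono hqA).low)
          ((((deg_state P.bob _ t).exec (P.bob.prog t)).proj _).mono hqB)
          (fun k f hk => hpt k f hk)
        refine ⟨T, fun _ f => ⟨?_, fun k k' hk => (hT f).2 k (hne f k k' hk).1 (hne f k k' hk).2⟩⟩
        have h1 : (T.cost f : ℝ) ≤ ((2 * qA + 1) * (N * qA) : ℕ) := by exact_mod_cast (hT f).1
        refine h1.trans ?_
        push_cast
        have h2 : (2 * (qA : ℝ) + 1) * qA ≤ 3 * (qA : ℝ) ^ 2 := by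
          rcases Nat.eq_zero_or_pos qA with h0 | h0
          · rw [h0]
            simp
          · have : (1 : ℝ) ≤ qA := by exact_mod_cast h0
            nlinarith
        calc (2 * (qA : ℝ) + 1) * (N * qA) = (2 * (qA : ℝ) + 1) * qA * N := by ring
          _ ≤ 3 * (qA : ℝ) ^ 2 * (4 * (qB : ℝ) ^ 2 / δ ^ 2) :=
              mul_le_mul h2 hN' (by positivity) (by positivity)
          _ = 12 * (qA : ℝ) ^ 2 * (qB : ℝ) ^ 2 / δ ^ 2 := by ring
      · refine ⟨QAlg.ret (Classical.choice inferInstance), fun _ f => ⟨?_, fun k k' hk => ?_⟩⟩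
        · show (((0 : ℕ) : ℝ)) ≤ _
          rw [Nat.cast_zero]
          positivity
        · exfalso
          obtain ⟨h1, h2⟩ := hne f k k' hk
          have h3 := hpt k f h1
          have h4 := norm_proj_add (fun i => P.bob.key t i = some k)
            (P.bob.decided (fun t => ¬ P.turn t) f t)
          have h5 : 0 < ‖P.bob.decided (fun t => ¬ P.turn t) f t‖ ^ 2 := by
            have := norm_pos_iff.mpr h2
            positivity
          push Not at hδ1
          nlinarith [sq_nonneg ‖proj (fun i => ¬ P.bob.key t i = some k)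
            (P.bob.decided (fun t => ¬ P.turn t) f t)‖]
    · exact ⟨QAlg.ret (Classical.choice inferInstance), fun h' => absurd h' ht⟩
  choose Eve hEve using key
  exact ⟨Eve, hEve⟩

end Protocols

end Pool.Agent.QKA99
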